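import Mathlib

/-!
# Totally separable packings: the number of translates in a box (helper89)
-/

set_option autoImplicit false

open Finset

namespace Pool.Agent.E8helper89.TSP

/-- `c` avoids the intervals `(X t, X t + 1)` -/
def Av {ι : Type*} (S : Set ι) (X : ι → ℝ) (c : ℝ) : Prop := ∀ t ∈ S, X t + 1 ≤ c ∨ c ≤ X t

/-- `c` separates `t` and `s` -/
def Cut {ι : Type*} (X : ι → ℝ) (c : ℝ) (t s : ι) : Prop :=
  (X t + 1 ≤ c ∧ c ≤ X s) ∨ (X s + 1 ≤ c ∧ c ≤ X t)

lemma Av.mono {ι : Type*} {S S' : Set ι} (h : S' ⊆ S) {X : ι → ℝ} {c : ℝ} (hA : Av S X c) :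
    Av S' X c := fun t ht => hA t (h ht)

/-- points of the line -/
theorem line {ι : Type*} (S : Finset ι) (H : ι → ℝ) (D : ℝ) (hD : 0 ≤ D)
    (h : ∀ t ∈ S, ∀ s ∈ S, |H t - H s| ≤ D)
    (hs : ∀ t ∈ S, ∀ s ∈ S, t ≠ s → 1 ≤ |H t - H s|) : (S.card : ℝ) ≤ D + 1 := by
  classical
  rcases S.eq_empty_or_nonempty with h0 | hne
  · rw [h0, Finset.card_empty]
    push_cast
    linarith
  obtain ⟨t0, ht0, hmin⟩ := Finset.exists_min_image S H hne
  have hle : S.card ≤ (Finset.range (⌊D⌋₊ + 1)).card := by
    apply Finset.card_le_card_of_injOn (fun t => ⌊H t - H t0⌋₊)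
    · intro t ht
      have h1 : H t - H t0 ≤ D := (le_abs_self _).trans (h t ht t0 ht0)
      simp only [Finset.coe_range, Set.mem_Iio]
      exact Nat.lt_succ_of_le (Nat.floor_le_floor h1)
    · intro t ht s hs' hts
      by_contra hne'
      have h1 := hs t ht s hs' hne'
      have h2 : 0 ≤ H t - H t0 := sub_nonneg.2 (hmin t ht)
      have h3 : 0 ≤ H s - H t0 := sub_nonneg.2 (hmin s hs')
      have h4 := Nat.floor_le h2
      have h5 := Nat.lt_floor_add_one (H t - H t0)
      have h6 := Nat.floor_le h3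
      have h7 := Nat.lt_floor_add_one (H s - H t0)
      simp only at hts
      rw [hts] at h4 h5
      have h8 : |H t - H s| < 1 := by
        rw [abs_lt]
        constructor <;> linarith
      linarith
  rw [Finset.card_range] at hle
  have h1 : (S.card : ℝ) ≤ ((⌊D⌋₊ + 1 : ℕ) : ℝ) := by exact_mod_cast hle
  push_cast at h1
  linarith [Nat.floor_le hD]

lemma one_add_le {κ : Type*} (s : Finset κ) (γ : κ → ℝ) (h : ∀ i ∈ s, 0 ≤ γ i) :
    1 + ∑ i ∈ s, γ i ≤ ∏ i ∈ s, (γ i + 1) := by
  classical
  induction s using Finset.induction_on with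
  | empty => simp
  | insert a s ha ih =>
    rw [Finset.sum_insert ha, Finset.prod_insert ha]
    have h1 := ih fun i hi => h i (Finset.mem_insert_of_mem hi)
    have h2 := h a (Finset.mem_insert_self _ _)
    have h3 : 1 ≤ ∏ i ∈ s, (γ i + 1) := by
      have : 0 ≤ ∑ i ∈ s, γ i := Finset.sum_nonneg fun i hi => h i (Finset.mem_insert_of_mem hi)
      linarith
    nlinarith

/-- **the number of points in a box** -/
theorem box_count {ι : Type*} {d : ℕ} (a : Fin d → ℝ) (ha : ∀ i, |a i| ≤ 1) (X : Fin d → ι → ℝ)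
    (H : ι → ℝ) (b : ℝ) (hH : ∀ t, H t = b + ∑ i, a i * X i t) :
    ∀ (n : ℕ) (S : Finset ι), S.card = n → ∀ (p q : Fin d → ℝ), (∀ i, p i ≤ q i) →
      (∀ t ∈ S, ∀ i, p i ≤ X i t ∧ X i t ≤ q i) →
      (∀ t ∈ S, ∀ s ∈ S, t ≠ s → (∃ i c, Av (S : Set ι) (X i) c ∧ Cut (X i) c t s) ∨
        (∃ c, Cut H c t s)) →
      (S.card : ℝ) ≤ ∏ i, (q i - p i + 1) := by
  classical
  intro n
  induction n using Nat.strong_induction_on with
  | _ n ih =>
  intro S hn p q hpq hS hsep
  by_cases hc : ∃ t ∈ S, ∃ s ∈ S, t ≠ s ∧ ∃ i c, Av (S : Set ι) (X i) c ∧ Cut (X i) c t s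
  · obtain ⟨t', ht', s', hs', hne', i, c, hA, hC'⟩ := hc
    -- order the pair
    obtain ⟨t, ht, s, hs, h1, h2⟩ : ∃ t ∈ S, ∃ s ∈ S, X i t + 1 ≤ c ∧ c ≤ X i s := by
      rcases hC' with h | h
      · exact ⟨t', ht', s', hs', h.1, h.2⟩
      · exact ⟨s', hs', t', ht', h.1, h.2⟩
    set S1 := S.filter (fun r => X i r + 1 ≤ c) with hS1
    set S2 := S.filter (fun r => ¬ (X i r + 1 ≤ c)) with hS2
    have hcard : S1.card + S2.card = S.card := Finset.card_filter_add_card_filter_not _
    have htS1 : t ∈ S1 := Finset.mem_filter.2 ⟨ht, h1⟩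
    have hsS2 : s ∈ S2 := Finset.mem_filter.2 ⟨hs, by linarith⟩
    have hc1 : 0 < S1.card := Finset.card_pos.2 ⟨t, htS1⟩
    have hc2 : 0 < S2.card := Finset.card_pos.2 ⟨s, hsS2⟩
    have hsub1 : S1 ⊆ S := Finset.filter_subset _ _
    have hsub2 : S2 ⊆ S := Finset.filter_subset _ _
    have hsep' : ∀ U : Finset ι, U ⊆ S → (∀ t ∈ U, ∀ s ∈ U, t ≠ s →
        (∃ i c, Av (U : Set ι) (X i) c ∧ Cut (X i) c t s) ∨ (∃ c, Cut H c t s)) := by
      intro U hU t ht s hs hts
      rcases hsep t (hU ht) s (hU hs) hts with ⟨i, c, h3, h4⟩ | h3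
      · exact Or.inl ⟨i, c, h3.mono (Finset.coe_subset.2 hU), h4⟩
      · exact Or.inr h3
    have hprod : ∀ x y : ℝ, ∀ q' p' : Fin d → ℝ, q' = Function.update q i y →
        p' = Function.update p i x →
        ∏ j, (q' j - p' j + 1) = (y - x + 1) * ∏ j ∈ univ.erase i, (q j - p j + 1) := by
      rintro x y q' p' rfl rfl
      rw [← Finset.mul_prod_erase univ _ (Finset.mem_univ i), Function.update_self,
        Function.update_self]
      congr 1
      refine Finset.prod_congr rfl fun j hj => ?_
      rw [Function.update_of_ne (Finset.ne_of_mem_erase hj),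
        Function.update_of_ne (Finset.ne_of_mem_erase hj)]
    have e1 := ih S1.card (by omega) S1 rfl p (Function.update q i (c - 1)) (by
        intro j
        by_cases hj : j = i
        · subst hj
          rw [Function.update_self]
          linarith [(hS t ht j).1]
        · rw [Function.update_of_ne hj]; exact hpq j) (by
        intro r hr j
        refine ⟨(hS r (hsub1 hr) j).1, ?_⟩
        by_cases hj : j = i
        · subst hj
          rw [Function.update_self]
          linarith [(Finset.mem_filter.1 hr).2]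
        · rw [Function.update_of_ne hj]; exact (hS r (hsub1 hr) j).2) (hsep' S1 hsub1)
    have e2 := ih S2.card (by omega) S2 rfl (Function.update p i c) q (by
        intro j
        by_cases hj : j = i
        · subst hj
          rw [Function.update_self]
          linarith [(hS s hs j).2]
        · rw [Function.update_of_ne hj]; exact hpq j) (by
        intro r hr j
        refine ⟨?_, (hS r (hsub2 hr) j).2⟩
        by_cases hj : j = i
        · subst hj
          rw [Function.update_self]
          exact (hA r (Finset.mem_coe.2 (hsub2 hr))).resolve_left (Finset.mem_filter.1 hr).2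
        · rw [Function.update_of_ne hj]; exact (hS r (hsub2 hr) j).1) (hsep' S2 hsub2)
    rw [hprod (p i) (c - 1) _ p rfl (Function.update_eq_self i p).symm] at e1
    rw [hprod c (q i) q _ (Function.update_eq_self i q).symm rfl] at e2
    rw [hprod (p i) (q i) q p (Function.update_eq_self i q).symm (Function.update_eq_self i p).symm]
    have h3 : (S.card : ℝ) = (S1.card : ℝ) + (S2.card : ℝ) := by
      rw [← hcard]; push_cast; rfl
    rw [h3]
    linarith
  · -- only the last direction separates
    have hH1 : ∀ t ∈ S, ∀ s ∈ S, t ≠ s → 1 ≤ |H t - H s| := by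
      intro t ht s hs hts
      rcases hsep t ht s hs hts with ⟨i, c, h1, h2⟩ | ⟨c, h2⟩
      · exact absurd ⟨t, ht, s, hs, hts, i, c, h1, h2⟩ hc
      · rcases h2 with h2 | h2
        · rw [abs_sub_comm]
          exact le_trans (by linarith [h2.1, h2.2]) (le_abs_self _)
        · exact le_trans (by linarith [h2.1, h2.2]) (le_abs_self _)
    have hD0 : 0 ≤ ∑ i, (q i - p i) := Finset.sum_nonneg fun i _ => sub_nonneg.2 (hpq i)
    have h1 := line S H (∑ i, (q i - p i)) hD0 (by
      intro t ht s hs
      rw [hH t, hH s]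
      have e : b + ∑ i, a i * X i t - (b + ∑ i, a i * X i s) = ∑ i, a i * (X i t - X i s) := by
        rw [add_sub_add_left_eq_sub, ← Finset.sum_sub_distrib]
        exact Finset.sum_congr rfl fun i _ => by ring
      rw [e]
      refine (Finset.abs_sum_le_sum_abs _ _).trans (Finset.sum_le_sum fun i _ => ?_)
      rw [abs_mul]
      have h2 : |X i t - X i s| ≤ q i - p i := by
        have h3 := hS t ht i
        have h4 := hS s hs i
        rw [abs_le]
        constructor <;> linarith [h3.1, h3.2, h4.1, h4.2]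
      calc |a i| * |X i t - X i s| ≤ 1 * (q i - p i) :=
            mul_le_mul (ha i) h2 (abs_nonneg _) zero_le_one
        _ = q i - p i := one_mul _) hH1
    have h2 := one_add_le univ (fun i => q i - p i) (fun i _ => sub_nonneg.2 (hpq i))
    linarith

end Pool.Agent.E8helper89.TSP
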