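import Mathlib
import Pool.Agent.E8helper89.TSP.Cnt

/-!
# Totally separable packings: at most two members in a cell (helper89)
-/

set_option autoImplicit false

open Finset

namespace Pool.Agent.E8helper89.TSP

/-- **the number of points in a box**, at most two in each cell of the coordinate cuts -/
theorem box_count2 {ι : Type*} {d : ℕ} (X : Fin d → ι → ℝ) :
    ∀ (n : ℕ) (S : Finset ι), S.card = n → ∀ (p q : Fin d → ℝ), (∀ i, p i ≤ q i) →
      (∀ t ∈ S, ∀ i, p i ≤ X i t ∧ X i t ≤ q i) →
      (∀ t ∈ S, ∀ s ∈ S, t ≠ s → (∃ i c, Av (S : Set ι) (X i) c ∧ Cut (X i) c t s) ∨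
        (∃ a : Fin d → ℝ, (∀ i, |a i| ≤ 1) ∧ 1 ≤ |∑ i, a i * (X i t - X i s)|)) →
      (∀ t ∈ S, ∀ s ∈ S, ∀ r ∈ S, t ≠ s → t ≠ r → s ≠ r →
        (∃ i c, Av (S : Set ι) (X i) c ∧ Cut (X i) c t s) ∨
        (∃ i c, Av (S : Set ι) (X i) c ∧ Cut (X i) c t r) ∨
        (∃ i c, Av (S : Set ι) (X i) c ∧ Cut (X i) c s r)) →
      (S.card : ℝ) ≤ ∏ i, (q i - p i + 1) := by
  classical
  intro n
  induction n using Nat.strong_induction_on with
  | _ n ih =>
  intro S hn p q hpq hS hsep h3
  by_cases hc : ∃ t ∈ S, ∃ s ∈ S, t ≠ s ∧ ∃ i c, Av (S : Set ι) (X i) c ∧ Cut (X i) c t s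
  · obtain ⟨t', ht', s', hs', hne', i, c, hA, hC'⟩ := hc
    obtain ⟨t, ht, s, hs, h1, h2⟩ : ∃ t ∈ S, ∃ s ∈ S, X i t + 1 ≤ c ∧ c ≤ X i s := by
      rcases hC' with h | h
      · exact ⟨t', ht', s', hs', h.1, h.2⟩
      · exact ⟨s', hs', t', ht', h.1, h.2⟩
    set S1 := S.filter (fun r => X i r + 1 ≤ c) with hS1
    set S2 := S.filter (fun r => ¬ (X i r + 1 ≤ c)) with hS2
    have hcard : S1.card + S2.card = S.card := Finset.card_filter_add_card_filter_not _
    have htS1 : t ∈ S1 := Finset.mem_filter.2 ⟨ht, h1⟩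
    have hsS2 : s ∈ S2 := Finset.mem_filter.2 ⟨hs, by linarith⟩
    have hc1 : 0 < S1.card := Finset.card_pos.2 ⟨t, htS1⟩
    have hc2 : 0 < S2.card := Finset.card_pos.2 ⟨s, hsS2⟩
    have hsub1 : S1 ⊆ S := Finset.filter_subset _ _
    have hsub2 : S2 ⊆ S := Finset.filter_subset _ _
    have hsep' : ∀ U : Finset ι, U ⊆ S → (∀ t ∈ U, ∀ s ∈ U, t ≠ s →
        (∃ i c, Av (U : Set ι) (X i) c ∧ Cut (X i) c t s) ∨
        (∃ a : Fin d → ℝ, (∀ i, |a i| ≤ 1) ∧ 1 ≤ |∑ i, a i * (X i t - X i s)|)) := by
      intro U hU t ht s hs hts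
      rcases hsep t (hU ht) s (hU hs) hts with ⟨i, c, h3, h4⟩ | h3
      · exact Or.inl ⟨i, c, h3.mono (Finset.coe_subset.2 hU), h4⟩
      · exact Or.inr h3
    have h3' : ∀ U : Finset ι, U ⊆ S → (∀ t ∈ U, ∀ s ∈ U, ∀ r ∈ U, t ≠ s → t ≠ r → s ≠ r →
        (∃ i c, Av (U : Set ι) (X i) c ∧ Cut (X i) c t s) ∨
        (∃ i c, Av (U : Set ι) (X i) c ∧ Cut (X i) c t r) ∨
        (∃ i c, Av (U : Set ι) (X i) c ∧ Cut (X i) c s r)) := by
      intro U hU t ht s hs r hr hts htr hsr
      rcases h3 t (hU ht) s (hU hs) r (hU hr) hts htr hsr with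
        ⟨i, c, h4, h5⟩ | ⟨i, c, h4, h5⟩ | ⟨i, c, h4, h5⟩
      · exact Or.inl ⟨i, c, h4.mono (Finset.coe_subset.2 hU), h5⟩
      · exact Or.inr (Or.inl ⟨i, c, h4.mono (Finset.coe_subset.2 hU), h5⟩)
      · exact Or.inr (Or.inr ⟨i, c, h4.mono (Finset.coe_subset.2 hU), h5⟩)
    have hprod : ∀ x y : ℝ, ∀ q' p' : Fin d → ℝ, q' = Function.update q i y →
        p' = Function.update p i x →
        ∏ j, (q' j - p' j + 1) = (y - x + 1) * ∏ j ∈ univ.erase i, (q j - p j + 1) := by
      rintro x y q' p' rfl rfl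
      rw [← Finset.mul_prod_erase univ _ (Finset.mem_univ i), Function.update_self,
        Function.update_self]
      congr 1
      refine Finset.prod_congr rfl fun j hj => ?_
      rw [Function.update_of_ne (Finset.ne_of_mem_erase hj),
        Function.update_of_ne (Finset.ne_of_mem_erase hj)]
    have e1 := ih S1.card (by omega) S1 rfl p (Function.update q i (c - 1)) (by
        intro j
        by_cases hj : j = i
        · subst hj
          rw [Function.update_self]
          linarith [(hS t ht j).1]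
        · rw [Function.update_of_ne hj]; exact hpq j) (by
        intro r hr j
        refine ⟨(hS r (hsub1 hr) j).1, ?_⟩
        by_cases hj : j = i
        · subst hj
          rw [Function.update_self]
          linarith [(Finset.mem_filter.1 hr).2]
        · rw [Function.update_of_ne hj]; exact (hS r (hsub1 hr) j).2) (hsep' S1 hsub1)
        (h3' S1 hsub1)
    have e2 := ih S2.card (by omega) S2 rfl (Function.update p i c) q (by
        intro j
        by_cases hj : j = i
        · subst hj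
          rw [Function.update_self]
          linarith [(hS s hs j).2]
        · rw [Function.update_of_ne hj]; exact hpq j) (by
        intro r hr j
        refine ⟨?_, (hS r (hsub2 hr) j).2⟩
        by_cases hj : j = i
        · subst hj
          rw [Function.update_self]
          exact (hA r (Finset.mem_coe.2 (hsub2 hr))).resolve_left (Finset.mem_filter.1 hr).2
        · rw [Function.update_of_ne hj]; exact (hS r (hsub2 hr) j).1) (hsep' S2 hsub2)
        (h3' S2 hsub2)
    rw [hprod (p i) (c - 1) _ p rfl (Function.update_eq_self i p).symm] at e1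
    rw [hprod c (q i) q _ (Function.update_eq_self i q).symm rfl] at e2
    rw [hprod (p i) (q i) q p (Function.update_eq_self i q).symm (Function.update_eq_self i p).symm]
    have h3 : (S.card : ℝ) = (S1.card : ℝ) + (S2.card : ℝ) := by
      rw [← hcard]; push_cast; rfl
    rw [h3]
    linarith
  · have hno : ∀ t ∈ S, ∀ s ∈ S, t ≠ s →
        ¬ (∃ i c, Av (S : Set ι) (X i) c ∧ Cut (X i) c t s) := fun t ht s hs hts h =>
      hc ⟨t, ht, s, hs, hts, h⟩
    have hone := one_add_le univ (fun i => q i - p i) (fun i _ => sub_nonneg.2 (hpq i))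
    have hD0 : 0 ≤ ∑ i, (q i - p i) := Finset.sum_nonneg fun i _ => sub_nonneg.2 (hpq i)
    have hcard2 : S.card ≤ 2 := by
      by_contra hlt
      push Not at hlt
      obtain ⟨t, s, r, ht, hs, hr, hts, htr, hsr⟩ := Finset.two_lt_card_iff.1 hlt
      rcases h3 t ht s hs r hr hts htr hsr with h | h | h
      · exact hno t ht s hs hts h
      · exact hno t ht r hr htr h
      · exact hno s hs r hr hsr h
    by_cases h2 : S.card = 2
    · obtain ⟨t, s, hts, rfl⟩ := Finset.card_eq_two.1 h2
      have ht : t ∈ ({t, s} : Finset ι) := by simp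
      have hs : s ∈ ({t, s} : Finset ι) := by simp
      obtain ⟨a, ha, h4⟩ := (hsep t ht s hs hts).resolve_left (hno t ht s hs hts)
      have h5 : |∑ i, a i * (X i t - X i s)| ≤ ∑ i, (q i - p i) := by
        refine (Finset.abs_sum_le_sum_abs _ _).trans (Finset.sum_le_sum fun i _ => ?_)
        rw [abs_mul]
        have h2 : |X i t - X i s| ≤ q i - p i := by
          have h3 := hS t ht i
          have h4 := hS s hs i
          rw [abs_le]
          constructor <;> linarith [h3.1, h3.2, h4.1, h4.2]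
        calc |a i| * |X i t - X i s| ≤ 1 * (q i - p i) :=
              mul_le_mul (ha i) h2 (abs_nonneg _) zero_le_one
          _ = q i - p i := one_mul _
      rw [h2]
      push_cast
      linarith
    · have h1 : S.card ≤ 1 := by omega
      have h1' : (S.card : ℝ) ≤ 1 := by exact_mod_cast h1
      linarith

end Pool.Agent.E8helper89.TSP
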