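import Mathlib

/-!
# Totally separable packings: the definitions (helper89)
-/

set_option autoImplicit false

open MeasureTheory

namespace Pool.Agent.E8helper89.TSP

/-- The parallelotope `v + {∑ a i • w i : 0 ≤ a i ≤ 1}`. -/
def Par {d : ℕ} (v : EuclideanSpace ℝ (Fin d)) (w : Fin d → EuclideanSpace ℝ (Fin d)) :
    Set (EuclideanSpace ℝ (Fin d)) :=
  {y | ∃ a : Fin d → ℝ, (∀ i, a i ∈ Set.Icc (0 : ℝ) 1) ∧ y = v + ∑ i, a i • w i}

/-- `Par v w` is a parallelotope of smallest volume among those which contain `K`. -/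
def IsSmallest {d : ℕ} (K : Set (EuclideanSpace ℝ (Fin d))) (v : EuclideanSpace ℝ (Fin d))
    (w : Fin d → EuclideanSpace ℝ (Fin d)) : Prop :=
  LinearIndependent ℝ w ∧ K ⊆ Par v w ∧
    ∀ (v' : EuclideanSpace ℝ (Fin d)) (w' : Fin d → EuclideanSpace ℝ (Fin d)),
      LinearIndependent ℝ w' → K ⊆ Par v' w' → volume (Par v w) ≤ volume (Par v' w')

/-- The hyperplane `f = c` separates `A` and `B`. -/
def Separates {d : ℕ} (f : EuclideanSpace ℝ (Fin d) →L[ℝ] ℝ) (c : ℝ)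
    (A B : Set (EuclideanSpace ℝ (Fin d))) : Prop :=
  ((∀ x ∈ A, f x ≤ c) ∧ ∀ x ∈ B, c ≤ f x) ∨ ((∀ x ∈ B, f x ≤ c) ∧ ∀ x ∈ A, c ≤ f x)

/-- The family of the translates `t + K`, `t ∈ T`, is totally separable by hyperplanes with normals
in `F`: any two members are separated by a hyperplane `f = c` with `f ∈ F`, `f ≠ 0`, which is
disjoint from the interior of every member. -/
def TotallySeparable {d : ℕ} (F : Set (EuclideanSpace ℝ (Fin d) →L[ℝ] ℝ))
    (T K : Set (EuclideanSpace ℝ (Fin d))) : Prop :=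
  ∀ t ∈ T, ∀ s ∈ T, t ≠ s → ∃ f ∈ F, f ≠ 0 ∧ ∃ c : ℝ,
    Separates f c ((fun x => t + x) '' K) ((fun x => s + x) '' K) ∧
    ∀ u ∈ T, ∀ y ∈ interior ((fun x => u + x) '' K), f y ≠ c

/-- The upper density of the family of the translates `t + K`, `t ∈ T`. -/
noncomputable def upperDensity {d : ℕ} (T K : Set (EuclideanSpace ℝ (Fin d))) : ENNReal :=
  Filter.limsup (fun R : ℝ =>
    volume ((⋃ t ∈ T, (fun x => t + x) '' K) ∩ Metric.ball (0 : EuclideanSpace ℝ (Fin d)) R) /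
      volume (Metric.ball (0 : EuclideanSpace ℝ (Fin d)) R)) Filter.atTop

/-- The translate by `x` of the lattice with basis `b`. -/
def LatticeSet {d : ℕ} (x : EuclideanSpace ℝ (Fin d)) (b : Fin d → EuclideanSpace ℝ (Fin d)) :
    Set (EuclideanSpace ℝ (Fin d)) :=
  {y | ∃ n : Fin d → ℤ, y = x + ∑ i, (n i : ℝ) • b i}

end Pool.Agent.E8helper89.TSP
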