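import Mathlib
import Pool.Agent.E8helper89.TSP.Cnt

/-!
# Totally separable packings: from the count in boxes to the density (helper89)
-/

set_option autoImplicit false

open MeasureTheory Filter Topology

namespace Pool.Agent.E8helper89.TSP

section

variable {d : ℕ} {E : Type} [NormedAddCommGroup E] [NormedSpace ℝ E] [MeasurableSpace E]
  [BorelSpace E] [FiniteDimensional ℝ E] {μ : Measure E} [μ.IsAddHaarMeasure]

/-- the volume of the preimage of a set -/
lemma vol_pre (Φ : E ≃L[ℝ] (Fin d → ℝ)) :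
    ∃ c : ENNReal, c ≠ 0 ∧ c ≠ ⊤ ∧ ∀ B : Set (Fin d → ℝ), MeasurableSet B →
      μ (Φ ⁻¹' B) = c * volume B := by
  have h1 : (Measure.map Φ μ).IsAddHaarMeasure := Φ.isAddHaarMeasure_map μ
  have hc := Measure.isAddLeftInvariant_eq_smul (Measure.map Φ μ)
    (volume : Measure (Fin d → ℝ))
  have hpos := Measure.addHaarScalarFactor_pos_of_isAddHaarMeasure (Measure.map Φ μ)
    (volume : Measure (Fin d → ℝ))
  refine ⟨(Measure.addHaarScalarFactor (Measure.map Φ μ) (volume : Measure (Fin d → ℝ)) : NNReal),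
    by exact_mod_cast hpos.ne', ENNReal.coe_ne_top, fun B hB => ?_⟩
  rw [← Measure.map_apply Φ.continuous.measurable hB]
  conv_lhs => rw [hc]
  rfl

/-- the number of translates which meet a ball -/
theorem count_ball (Φ : E ≃L[ℝ] (Fin d → ℝ)) (l : Fin d → ℝ) {K : Set E}
    (hKb : Bornology.IsBounded K) (T : Set E)
    (hT : ∀ S : Finset E, (S : Set E) ⊆ T → ∀ p q : Fin d → ℝ, (∀ i, p i ≤ q i) →
      (∀ t ∈ S, ∀ i, p i ≤ Φ t i + l i ∧ Φ t i + l i ≤ q i) → (S.card : ℝ) ≤ ∏ i, (q i - p i + 1))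
    {c : ENNReal} (hc : ∀ B : Set (Fin d → ℝ), MeasurableSet B → μ (Φ ⁻¹' B) = c * volume B)
    (N : ℕ) (hN : 2 ≤ N) :
    ∃ δ : ℝ, 0 ≤ δ ∧ ∀ R : ℝ, ∀ S : Finset E, (S : Set E) ⊆ T →
      (∀ t ∈ S, (((fun x => t + x) '' K) ∩ Metric.ball (0 : E) R).Nonempty) →
      (S.card : ENNReal) * (c * ENNReal.ofReal (((N : ℝ) - 1) ^ d)) ≤
        ENNReal.ofReal ((N : ℝ) ^ d) * μ (Metric.ball (0 : E) (R + δ)) := by
  classical
  have hN' : (2 : ℝ) ≤ (N : ℝ) := by exact_mod_cast hN
  obtain ⟨ρ, hρ⟩ := hKb.exists_norm_le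
  set Z : Set E := Φ ⁻¹' (Set.Icc (fun i => l i + 1 - N) l) with hZ
  have hZb : Bornology.IsBounded Z := by
    have h1 : IsCompact Z := by
      have : Z = Φ.symm '' (Set.Icc (fun i => l i + 1 - N) l) := by
        rw [hZ, Φ.symm.image_eq_preimage_symm]
        rfl
      rw [this]
      exact isCompact_Icc.image Φ.symm.continuous
    exact h1.isBounded
  obtain ⟨ρ', hρ'⟩ := hZb.exists_norm_le
  refine ⟨|ρ| + |ρ'| + 1, by positivity, fun R S hST hSR => ?_⟩
  set Y : E → Set E := fun t => Φ ⁻¹' (Set.Icc (fun i => Φ t i + l i + 1 - N)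
    (fun i => Φ t i + l i)) with hY
  have hYm : ∀ t, MeasurableSet (Y t) := fun t => measurableSet_Icc.preimage Φ.continuous.measurable
  have hYv : ∀ t, μ (Y t) = c * ENNReal.ofReal (((N : ℝ) - 1) ^ d) := by
    intro t
    rw [hY, hc _ measurableSet_Icc, Real.volume_Icc_pi]
    congr 1
    have : ∀ i : Fin d, (Φ t i + l i) - (Φ t i + l i + 1 - N) = (N : ℝ) - 1 := fun i => by ring
    simp only [this]
    rw [Finset.prod_const, Finset.card_univ, Fintype.card_fin, ENNReal.ofReal_pow (by linarith)]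
  have hYin : ∀ t ∈ S, ∀ y ∈ Y t, y ∈ Metric.ball (0 : E) (R + (|ρ| + |ρ'| + 1)) := by
    intro t ht y hy
    obtain ⟨z, ⟨x, hx, hxz⟩, hz⟩ := hSR t ht
    have h1 : ‖t + x‖ < R := by
      rw [← mem_ball_zero_iff]
      simp only at hxz
      rw [hxz]
      exact hz
    have h2 : y - t ∈ Z := by
      rw [hZ, Set.mem_preimage, map_sub]
      have hy' := hy
      rw [hY] at hy'
      simp only [Set.mem_preimage, Set.mem_Icc, Pi.le_def] at hy'
      rw [Set.mem_Icc, Pi.le_def, Pi.le_def]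
      refine ⟨fun i => ?_, fun i => ?_⟩
      · have := hy'.1 i
        rw [Pi.sub_apply]
        linarith
      · have := hy'.2 i
        rw [Pi.sub_apply]
        linarith
    have h3 := hρ x hx
    have h4 := hρ' _ h2
    rw [mem_ball_zero_iff]
    have h5 : y = (y - t) + ((t + x) - x) := by abel
    calc ‖y‖ = ‖(y - t) + ((t + x) - x)‖ := by rw [← h5]
      _ ≤ ‖y - t‖ + (‖t + x‖ + ‖x‖) := (norm_add_le _ _).trans (by
          gcongr
          exact norm_sub_le _ _)
      _ < R + (|ρ| + |ρ'| + 1) := by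
          have := le_abs_self ρ
          have := le_abs_self ρ'
          linarith
  have hcnt : ∀ y : E, ((S.filter fun t => y ∈ Y t).card : ℝ) ≤ (N : ℝ) ^ d := by
    intro y
    have h1 := hT (S.filter fun t => y ∈ Y t) (fun t ht => hST (Finset.mem_coe.2
      (Finset.mem_filter.1 (Finset.mem_coe.1 ht)).1)) (Φ y) (fun i => Φ y i + (N - 1))
      (fun i => by linarith) (by
        intro t ht i
        have h2 := (Finset.mem_filter.1 ht).2
        rw [hY] at h2
        simp only [Set.mem_preimage, Set.mem_Icc, Pi.le_def] at h2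
        have h3 := h2.1 i
        have h4 := h2.2 i
        constructor <;> linarith)
    refine h1.trans (le_of_eq ?_)
    have : ∀ i : Fin d, Φ y i + ((N : ℝ) - 1) - Φ y i + 1 = N := fun i => by ring
    simp only [this]
    rw [Finset.prod_const, Finset.card_univ, Fintype.card_fin]
  calc (S.card : ENNReal) * (c * ENNReal.ofReal (((N : ℝ) - 1) ^ d))
      = ∑ t ∈ S, μ (Y t) := by
        rw [Finset.sum_congr rfl fun t _ => hYv t, Finset.sum_const, nsmul_eq_mul]
    _ = ∑ t ∈ S, ∫⁻ y, (Y t).indicator (fun _ => (1 : ENNReal)) y ∂μ := by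
        refine Finset.sum_congr rfl fun t _ => ?_
        rw [lintegral_indicator (hYm t), setLIntegral_one]
    _ = ∫⁻ y, ∑ t ∈ S, (Y t).indicator (fun _ => (1 : ENNReal)) y ∂μ := by
        rw [lintegral_finsetSum]
        intro t _
        exact measurable_const.indicator (hYm t)
    _ ≤ ∫⁻ y, (Metric.ball (0 : E) (R + (|ρ| + |ρ'| + 1))).indicator
          (fun _ => ENNReal.ofReal ((N : ℝ) ^ d)) y ∂μ := by
        apply lintegral_mono
        intro y
        simp only
        by_cases hy : y ∈ Metric.ball (0 : E) (R + (|ρ| + |ρ'| + 1))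
        · rw [Set.indicator_of_mem hy]
          have h1 : ∑ t ∈ S, (Y t).indicator (fun _ => (1 : ENNReal)) y =
              ((S.filter fun t => y ∈ Y t).card : ENNReal) := by
            rw [Finset.card_filter]
            push_cast
            refine Finset.sum_congr rfl fun t _ => ?_
            rw [Set.indicator_apply]
          rw [h1]
          have h2 := ENNReal.ofReal_le_ofReal (hcnt y)
          rwa [ENNReal.ofReal_natCast] at h2
        · rw [Set.indicator_of_notMem hy]
          apply le_of_eq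
          apply Finset.sum_eq_zero
          intro t ht
          rw [Set.indicator_of_notMem]
          exact fun h => hy (hYin t ht y h)
    _ = ENNReal.ofReal ((N : ℝ) ^ d) * μ (Metric.ball (0 : E) (R + (|ρ| + |ρ'| + 1))) := by
        rw [lintegral_indicator Metric.isOpen_ball.measurableSet, setLIntegral_const]

/-- **the density** -/
theorem dens (Φ : E ≃L[ℝ] (Fin d → ℝ)) (l : Fin d → ℝ) {K : Set E}
    (hK : IsCompact K) (T : Set E)
    (hT : ∀ S : Finset E, (S : Set E) ⊆ T → ∀ p q : Fin d → ℝ, (∀ i, p i ≤ q i) →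
      (∀ t ∈ S, ∀ i, p i ≤ Φ t i + l i ∧ Φ t i + l i ≤ q i) → (S.card : ℝ) ≤ ∏ i, (q i - p i + 1)) :
    limsup (fun R : ℝ => μ ((⋃ t ∈ T, (fun x => t + x) '' K) ∩ Metric.ball (0 : E) R) /
      μ (Metric.ball (0 : E) R)) atTop ≤ μ K / μ (Φ ⁻¹' Set.Icc l (fun i => l i + 1)) := by
  classical
  obtain ⟨c, hc0, hc1, hc⟩ := vol_pre (μ := μ) Φ
  have hP : μ (Φ ⁻¹' Set.Icc l (fun i => l i + 1)) = c := by
    rw [hc _ measurableSet_Icc, Real.volume_Icc_pi]
    have : ∀ i : Fin d, l i + 1 - l i = 1 := fun i => by ring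
    simp only [this]
    simp
  rw [hP]
  set m := Module.finrank ℝ E with hm
  set ω := μ (Metric.ball (0 : E) 1) with hω
  have hω0 : ω ≠ 0 := (Metric.measure_ball_pos μ 0 one_pos).ne'
  have hω1 : ω ≠ ⊤ := measure_ball_lt_top.ne
  have hball : ∀ r : ℝ, 0 < r → μ (Metric.ball (0 : E) r) = ENNReal.ofReal (r ^ m) * ω :=
    fun r hr => Measure.addHaar_ball_of_pos μ 0 hr
  have hkT : μ K ≠ ⊤ := hK.measure_lt_top.ne
  have key : ∀ N : ℕ, 2 ≤ N →
      limsup (fun R : ℝ => μ ((⋃ t ∈ T, (fun x => t + x) '' K) ∩ Metric.ball (0 : E) R) /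
        μ (Metric.ball (0 : E) R)) atTop ≤
        (μ K / c) * ENNReal.ofReal (((N : ℝ) / ((N : ℝ) - 1)) ^ d) := by
    intro N hN
    have hN' : (2 : ℝ) ≤ (N : ℝ) := by exact_mod_cast hN
    obtain ⟨δ, hδ, hcnt⟩ := count_ball (μ := μ) Φ l hK.isBounded T hT hc N hN
    have hN1 : 0 < ((N : ℝ) - 1) ^ d := pow_pos (by linarith) d
    have ha0 : ENNReal.ofReal (((N : ℝ) - 1) ^ d) ≠ 0 := (ENNReal.ofReal_pos.2 hN1).ne'
    have hca0 : c * ENNReal.ofReal (((N : ℝ) - 1) ^ d) ≠ 0 := mul_ne_zero hc0 ha0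
    have hca1 : c * ENNReal.ofReal (((N : ℝ) - 1) ^ d) ≠ ⊤ :=
      ENNReal.mul_ne_top hc1 ENNReal.ofReal_ne_top
    have hbd : ∀ R : ℝ, 0 < R →
        μ ((⋃ t ∈ T, (fun x => t + x) '' K) ∩ Metric.ball (0 : E) R) /
          μ (Metric.ball (0 : E) R) ≤
        ((μ K / c) * ENNReal.ofReal (((N : ℝ) / ((N : ℝ) - 1)) ^ d)) *
          ENNReal.ofReal (((R + δ) / R) ^ m) := by
      intro R hR
      set TR : Set E := {t | t ∈ T ∧ (((fun x => t + x) '' K) ∩ Metric.ball (0 : E) R).Nonempty}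
        with hTR
      have hfin : TR.Finite := by
        by_contra hinf
        obtain ⟨n, hn⟩ := ENNReal.exists_nat_gt (r := (ENNReal.ofReal ((N : ℝ) ^ d) *
          μ (Metric.ball (0 : E) (R + δ))) / (c * ENNReal.ofReal (((N : ℝ) - 1) ^ d)))
          (ENNReal.div_ne_top (ENNReal.mul_ne_top ENNReal.ofReal_ne_top
            measure_ball_lt_top.ne) hca0)
        obtain ⟨S, hS, hSn⟩ := Set.Infinite.exists_subset_card_eq hinf n
        have h1 := hcnt R S (fun t ht => (hS ht).1) (fun t ht => (hS (Finset.mem_coe.2 ht)).2)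
        rw [hSn] at h1
        have h2 := (ENNReal.le_div_iff_mul_le (Or.inl hca0) (Or.inl hca1)).2 h1
        exact absurd h2 (not_le.2 hn)
      set S := hfin.toFinset with hS
      have h1 := hcnt R S (fun t ht => ((hfin.mem_toFinset).1 (Finset.mem_coe.1 ht)).1)
        (fun t ht => ((hfin.mem_toFinset).1 ht).2)
      have h2 : μ ((⋃ t ∈ T, (fun x => t + x) '' K) ∩ Metric.ball (0 : E) R) ≤
          (S.card : ENNReal) * μ K := by
        calc μ ((⋃ t ∈ T, (fun x => t + x) '' K) ∩ Metric.ball (0 : E) R)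
            ≤ μ (⋃ t ∈ S, (fun x => t + x) '' K) := by
              apply measure_mono
              rintro y ⟨hy1, hy2⟩
              rw [Set.mem_iUnion₂] at hy1
              obtain ⟨t, ht, hyt⟩ := hy1
              rw [Set.mem_iUnion₂]
              exact ⟨t, (hfin.mem_toFinset).2 ⟨ht, y, hyt, hy2⟩, hyt⟩
          _ ≤ ∑ t ∈ S, μ ((fun x => t + x) '' K) := measure_biUnion_finset_le _ _
          _ = (S.card : ENNReal) * μ K := by
              rw [← nsmul_eq_mul, ← Finset.sum_const]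
              refine Finset.sum_congr rfl fun t _ => ?_
              rw [Set.image_add_left, measure_preimage_add]
      rw [hball R hR]
      rw [hball (R + δ) (by linarith)] at h1
      set r := ENNReal.ofReal (R ^ m) with hr
      set r' := ENNReal.ofReal ((R + δ) ^ m) with hr'
      set a := ENNReal.ofReal (((N : ℝ) - 1) ^ d) with ha
      set b := ENNReal.ofReal ((N : ℝ) ^ d) with hb
      have hr0 : r ≠ 0 := (ENNReal.ofReal_pos.2 (pow_pos hR m)).ne'
      have hrt : r ≠ ⊤ := ENNReal.ofReal_ne_top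
      have h3 : (S.card : ENNReal) ≤ (b * (r' * ω)) / (c * a) :=
        (ENNReal.le_div_iff_mul_le (Or.inl hca0) (Or.inl hca1)).2 h1
      have e1 : ENNReal.ofReal (((N : ℝ) / ((N : ℝ) - 1)) ^ d) = b * a⁻¹ := by
        rw [div_pow, ENNReal.ofReal_div_of_pos hN1, div_eq_mul_inv]
      have e2 : ENNReal.ofReal (((R + δ) / R) ^ m) = r' * r⁻¹ := by
        rw [div_pow, ENNReal.ofReal_div_of_pos (pow_pos hR m), div_eq_mul_inv]
      rw [e1, e2]
      calc μ ((⋃ t ∈ T, (fun x => t + x) '' K) ∩ Metric.ball (0 : E) R) / (r * ω)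
          ≤ ((b * (r' * ω)) / (c * a) * μ K) / (r * ω) := by
            gcongr
            exact h2.trans (by gcongr)
        _ = μ K / c * (b * a⁻¹) * (r' * r⁻¹) * (ω * ω⁻¹) := by
            rw [div_eq_mul_inv, div_eq_mul_inv, div_eq_mul_inv,
              ENNReal.mul_inv (Or.inl hc0) (Or.inl hc1),
              ENNReal.mul_inv (Or.inl hr0) (Or.inl hrt)]
            ring
        _ = μ K / c * (b * a⁻¹) * (r' * r⁻¹) := by
            rw [ENNReal.mul_inv_cancel hω0 hω1, mul_one]
    have hlim : Tendsto (fun R : ℝ => ((μ K / c) * ENNReal.ofReal (((N : ℝ) / ((N : ℝ) - 1)) ^ d)) *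
          ENNReal.ofReal (((R + δ) / R) ^ m)) atTop
        (𝓝 (((μ K / c) * ENNReal.ofReal (((N : ℝ) / ((N : ℝ) - 1)) ^ d)) * 1)) := by
      apply ENNReal.Tendsto.const_mul
      · have h1 : Tendsto (fun R : ℝ => ((R + δ) / R) ^ m) atTop (𝓝 1) := by
          have h2 : Tendsto (fun R : ℝ => 1 + δ / R) atTop (𝓝 (1 + 0)) :=
            tendsto_const_nhds.add (tendsto_const_nhds.div_atTop tendsto_id)
          rw [add_zero] at h2
          have h3 : Tendsto (fun R : ℝ => (R + δ) / R) atTop (𝓝 1) := by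
            refine h2.congr' ?_
            filter_upwards [eventually_gt_atTop 0] with R hR
            field_simp
          have h4 := h3.pow m
          rwa [one_pow] at h4
        have h5 := ENNReal.tendsto_ofReal h1
        rwa [ENNReal.ofReal_one] at h5
      · exact Or.inr (ENNReal.mul_ne_top (ENNReal.div_ne_top hkT hc0) ENNReal.ofReal_ne_top)
    rw [mul_one] at hlim
    rw [← hlim.limsup_eq]
    have hev : (fun R : ℝ => μ ((⋃ t ∈ T, (fun x => t + x) '' K) ∩ Metric.ball (0 : E) R) /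
        μ (Metric.ball (0 : E) R)) ≤ᶠ[atTop] (fun R : ℝ =>
        ((μ K / c) * ENNReal.ofReal (((N : ℝ) / ((N : ℝ) - 1)) ^ d)) *
          ENNReal.ofReal (((R + δ) / R) ^ m)) := by
      filter_upwards [eventually_gt_atTop 0] with R hR
      exact hbd R hR
    exact limsup_le_limsup hev
  have hlim2 : Tendsto (fun n : ℕ => (μ K / c) *
      ENNReal.ofReal ((((n + 2 : ℕ) : ℝ) / (((n + 2 : ℕ) : ℝ) - 1)) ^ d)) atTop
      (𝓝 ((μ K / c) * 1)) := by
    apply ENNReal.Tendsto.const_mul
    · have h2 : Tendsto (fun n : ℕ => 1 + 1 / ((n : ℝ) + 1)) atTop (𝓝 (1 + 0)) :=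
        tendsto_const_nhds.add tendsto_one_div_add_atTop_nhds_zero_nat
      rw [add_zero] at h2
      have h3 : Tendsto (fun n : ℕ => ((n + 2 : ℕ) : ℝ) / (((n + 2 : ℕ) : ℝ) - 1)) atTop (𝓝 1) := by
        refine h2.congr fun n => ?_
        push_cast
        have : (n : ℝ) + 1 ≠ 0 := by positivity
        have : (n : ℝ) + 2 - 1 ≠ 0 := by
          have : (n : ℝ) + 2 - 1 = n + 1 := by ring
          rw [this]; positivity
        field_simp
        ring
      have h4 := h3.pow d
      rw [one_pow] at h4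
      have h5 := ENNReal.tendsto_ofReal h4
      rwa [ENNReal.ofReal_one] at h5
    · exact Or.inr (ENNReal.div_ne_top hkT hc0)
  rw [mul_one] at hlim2
  exact ge_of_tendsto' hlim2 fun n => key (n + 2) (by omega)

end

end Pool.Agent.E8helper89.TSP
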