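import Mathlib
import Pool.Agent.E8helper89.TSP.Dens
import Pool.Agent.E8helper89.TSP.Defs

/-!
# Totally separable packings: at most `d + 1` directions (helper89)
-/

set_option autoImplicit false

open MeasureTheory Filter Topology

namespace Pool.Agent.E8helper89.TSP

section

variable {d : ℕ} {K : Set (EuclideanSpace ℝ (Fin d))}

/-- a nonzero functional is not constant on a set with nonempty interior -/
lemma width_pos (hKi : (interior K).Nonempty) (f : EuclideanSpace ℝ (Fin d) →L[ℝ] ℝ)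
    (hf : f ≠ 0) : ∃ x ∈ K, ∃ y ∈ K, f x < f y := by
  obtain ⟨z, hz⟩ := hKi
  obtain ⟨u, hu⟩ : ∃ u, 0 < f u := by
    by_contra hcon
    push Not at hcon
    apply hf
    ext u
    apply le_antisymm (hcon u)
    have := hcon (-u)
    rw [map_neg] at this
    show (0 : ℝ) ≤ f u
    linarith
  have h1 : Tendsto (fun ε : ℝ => z + ε • u) (𝓝 0) (𝓝 (z + (0 : ℝ) • u)) :=
    (continuous_const.add (continuous_id.smul continuous_const)).tendsto 0
  rw [zero_smul, add_zero] at h1
  have h2 : ∀ᶠ ε : ℝ in 𝓝 0, z + ε • u ∈ K :=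
    h1 (mem_interior_iff_mem_nhds.1 hz)
  obtain ⟨r, hr, hr'⟩ := Metric.eventually_nhds_iff.1 h2
  have h3 : z + (r / 2) • u ∈ K := hr' (by
    rw [Real.dist_eq, sub_zero, abs_of_pos (by linarith)]
    linarith)
  refine ⟨z, interior_subset hz, _, h3, ?_⟩
  rw [map_add, map_smul, smul_eq_mul]
  have : 0 < r / 2 * f u := by positivity
  linarith

/-- the value of a hyperplane which is disjoint from the interior of a translate -/
lemma avoid (hKc : IsCompact K) (hKx : Convex ℝ K) (hKi : (interior K).Nonempty)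
    (g : EuclideanSpace ℝ (Fin d) →L[ℝ] ℝ) {x y : EuclideanSpace ℝ (Fin d)} (hx : x ∈ K)
    (hy : y ∈ K) (u : EuclideanSpace ℝ (Fin d)) (c : ℝ)
    (h : ∀ z ∈ interior ((fun x => u + x) '' K), g z ≠ c) : g u + g y ≤ c ∨ c ≤ g u + g x := by
  by_contra hcon
  push Not at hcon
  obtain ⟨h1, h2⟩ := hcon
  have hcl : closure (interior K) = K := by
    rw [hKx.closure_interior_eq_closure_of_nonempty_interior hKi, hKc.isClosed.closure_eq]
  obtain ⟨z1, hz1, hz1'⟩ : ∃ z ∈ interior K, g z < c - g u := by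
    have h3 : x ∈ closure (interior K) := by rw [hcl]; exact hx
    have ho : IsOpen {z | g z < c - g u} := isOpen_lt g.continuous continuous_const
    obtain ⟨z, hz, hz'⟩ := mem_closure_iff.1 h3 _ ho (by
      show g x < c - g u
      linarith)
    exact ⟨z, hz', hz⟩
  obtain ⟨z2, hz2, hz2'⟩ : ∃ z ∈ interior K, c - g u < g z := by
    have h3 : y ∈ closure (interior K) := by rw [hcl]; exact hy
    have ho : IsOpen {z | c - g u < g z} := isOpen_lt continuous_const g.continuous
    obtain ⟨z, hz, hz'⟩ := mem_closure_iff.1 h3 _ ho (by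
      show c - g u < g y
      linarith)
    exact ⟨z, hz', hz⟩
  have hconv : Convex ℝ (g '' interior K) := hKx.interior.is_linear_image g.isLinear
  obtain ⟨z, hz, hzc⟩ := hconv.ordConnected.out (Set.mem_image_of_mem g hz1)
    (Set.mem_image_of_mem g hz2) ⟨hz1'.le, hz2'.le⟩
  refine h (u + z) ?_ (by rw [map_add, hzc]; ring)
  have e : (fun x => u + x) '' K = (Homeomorph.addLeft u) '' K := rfl
  rw [e, ← (Homeomorph.addLeft u).image_interior]
  exact ⟨z, hz, rfl⟩

/-- the normalised functionals -/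
lemma normal (hKc : IsCompact K) (hKx : Convex ℝ K) (hKi : (interior K).Nonempty)
    (f : EuclideanSpace ℝ (Fin d) →L[ℝ] ℝ) (hf : f ≠ 0) :
    ∃ (ω l : ℝ), 0 < ω ∧ (∀ x ∈ K, l ≤ (ω • f) x ∧ (ω • f) x ≤ l + 1) ∧
      (∀ (T : Set (EuclideanSpace ℝ (Fin d))) (c : ℝ),
        (∀ u ∈ T, ∀ y ∈ interior ((fun x => u + x) '' K), f y ≠ c) →
        Av T (fun t => (ω • f) t + l) (ω * c)) ∧
      (∀ (t s : EuclideanSpace ℝ (Fin d)) (c : ℝ),
        Separates f c ((fun x => t + x) '' K) ((fun x => s + x) '' K) →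
        Cut (fun t => (ω • f) t + l) (ω * c) t s) := by
  have hne : K.Nonempty := hKi.mono interior_subset
  obtain ⟨x, hx, hxm⟩ := hKc.exists_isMinOn hne f.continuous.continuousOn
  obtain ⟨y, hy, hym⟩ := hKc.exists_isMaxOn hne f.continuous.continuousOn
  obtain ⟨x', hx', y', hy', hxy'⟩ := width_pos hKi f hf
  have h1 : f x < f y := lt_of_le_of_lt (hxm hx') (lt_of_lt_of_le hxy' (hym hy'))
  have hw : 0 < f y - f x := sub_pos.2 h1
  have hω : 0 < (f y - f x)⁻¹ := inv_pos.2 hw
  have hyx : (f y - f x)⁻¹ * f y = (f y - f x)⁻¹ * f x + 1 := by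
    field_simp
    ring
  refine ⟨(f y - f x)⁻¹, (f y - f x)⁻¹ * f x, hω, fun z hz => ?_, fun T c hc u hu => ?_,
    fun t s c hc => ?_⟩
  · rw [ContinuousLinearMap.smul_apply, smul_eq_mul, ← hyx]
    exact ⟨mul_le_mul_of_nonneg_left (hxm hz) hω.le, mul_le_mul_of_nonneg_left (hym hz) hω.le⟩
  · have h2 := avoid hKc hKx hKi f hx hy u c (hc u hu)
    simp only [ContinuousLinearMap.smul_apply, smul_eq_mul]
    rcases h2 with h2 | h2
    · left
      have h3 := mul_le_mul_of_nonneg_left h2 hω.le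
      rw [mul_add, hyx] at h3
      linarith
    · right
      have h3 := mul_le_mul_of_nonneg_left h2 hω.le
      rw [mul_add] at h3
      linarith
  · have key : ∀ t s : EuclideanSpace ℝ (Fin d),
        ((∀ z ∈ (fun x => t + x) '' K, f z ≤ c) ∧ ∀ z ∈ (fun x => s + x) '' K, c ≤ f z) →
        (f y - f x)⁻¹ * f t + (f y - f x)⁻¹ * f x + 1 ≤ (f y - f x)⁻¹ * c ∧
          (f y - f x)⁻¹ * c ≤ (f y - f x)⁻¹ * f s + (f y - f x)⁻¹ * f x := by
      rintro t s ⟨h2, h3⟩
      have h4 := h2 (t + y) ⟨y, hy, rfl⟩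
      have h5 := h3 (s + x) ⟨x, hx, rfl⟩
      rw [map_add] at h4 h5
      have h6 := mul_le_mul_of_nonneg_left h4 hω.le
      have h7 := mul_le_mul_of_nonneg_left h5 hω.le
      rw [mul_add, hyx] at h6
      rw [mul_add] at h7
      exact ⟨by linarith, h7⟩
    unfold Cut
    simp only [ContinuousLinearMap.smul_apply, smul_eq_mul]
    rcases hc with hc | hc
    · exact Or.inl (key t s hc)
    · exact Or.inr (key s t hc)

/-- the density in terms of a system of `d` functionals -/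
theorem dens_of (hKc : IsCompact K) (G : Fin d → EuclideanSpace ℝ (Fin d) →L[ℝ] ℝ)
    (hG : ∀ x, (∀ i, G i x = 0) → x = 0) (l : Fin d → ℝ)
    (hl : ∀ x ∈ K, ∀ i, l i ≤ G i x ∧ G i x ≤ l i + 1)
    (T : Set (EuclideanSpace ℝ (Fin d)))
    (hT : ∀ S : Finset (EuclideanSpace ℝ (Fin d)), (S : Set (EuclideanSpace ℝ (Fin d))) ⊆ T →
      ∀ p q : Fin d → ℝ, (∀ i, p i ≤ q i) →
      (∀ t ∈ S, ∀ i, p i ≤ G i t + l i ∧ G i t + l i ≤ q i) → (S.card : ℝ) ≤ ∏ i, (q i - p i + 1)) :
    ∃ (v : EuclideanSpace ℝ (Fin d)) (w : Fin d → EuclideanSpace ℝ (Fin d)),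
      LinearIndependent ℝ w ∧ K ⊆ Par v w ∧ upperDensity T K ≤ volume K / volume (Par v w) := by
  let L : EuclideanSpace ℝ (Fin d) →ₗ[ℝ] (Fin d → ℝ) := LinearMap.pi fun i => (G i : _ →ₗ[ℝ] ℝ)
  have hL : Function.Injective L := by
    rw [injective_iff_map_eq_zero]
    intro x hx
    apply hG
    intro i
    exact congrFun hx i
  let e : EuclideanSpace ℝ (Fin d) ≃ₗ[ℝ] (Fin d → ℝ) :=
    LinearEquiv.ofInjectiveOfFinrankEq L hL (by simp)
  let Φ : EuclideanSpace ℝ (Fin d) ≃L[ℝ] (Fin d → ℝ) := e.toContinuousLinearEquiv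
  have hΦ : ∀ x i, Φ x i = G i x := fun x i => rfl
  have h := dens (μ := (volume : Measure (EuclideanSpace ℝ (Fin d)))) Φ l hKc T hT
  have hpar : Φ ⁻¹' Set.Icc l (fun i => l i + 1) =
      Par (Φ.symm l) (fun i => Φ.symm (Pi.single i 1)) := by
    ext y
    have hsum : ∀ a : Fin d → ℝ, Φ (Φ.symm l + ∑ i, a i • Φ.symm (Pi.single i 1)) = l + a := by
      intro a
      rw [map_add, Φ.apply_symm_apply, map_sum]
      congr 1
      ext j
      rw [Finset.sum_apply]
      simp only [map_smul, Φ.apply_symm_apply, Pi.smul_apply, smul_eq_mul]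
      rw [Finset.sum_eq_single j]
      · simp
      · intro b _ hb
        rw [Pi.single_eq_of_ne (Ne.symm hb), mul_zero]
      · intro hj
        exact absurd (Finset.mem_univ j) hj
    constructor
    · intro hy
      rw [Set.mem_preimage, Set.mem_Icc, Pi.le_def, Pi.le_def] at hy
      refine ⟨fun i => Φ y i - l i, fun i => ⟨by linarith [hy.1 i], by linarith [hy.2 i]⟩, ?_⟩
      apply Φ.injective
      rw [hsum]
      ext i
      simp
    · rintro ⟨a, ha, rfl⟩
      rw [Set.mem_preimage, hsum, Set.mem_Icc, Pi.le_def, Pi.le_def]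
      refine ⟨fun i => ?_, fun i => ?_⟩
      · rw [Pi.add_apply]; linarith [(ha i).1]
      · rw [Pi.add_apply]; linarith [(ha i).2]
  rw [hpar] at h
  refine ⟨Φ.symm l, fun i => Φ.symm (Pi.single i 1), ?_, ?_, h⟩
  · have h1 := ((Pi.basisFun ℝ (Fin d)).map e.symm).linearIndependent
    convert h1 using 2 with i
    rw [Module.Basis.map_apply, Pi.basisFun_apply]
    rfl
  · rw [← hpar]
    intro x hx
    rw [Set.mem_preimage, Set.mem_Icc, Pi.le_def, Pi.le_def]
    exact ⟨fun i => (hl x hx i).1, fun i => (hl x hx i).2⟩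

end

end Pool.Agent.E8helper89.TSP
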