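import Mathlib
import Pool.Agent.E8helper89.TSP.Geo

/-!
# Totally separable packings: the theorem for at most `d + 1` directions (helper89)
-/

set_option autoImplicit false

open MeasureTheory Filter Topology

namespace Pool.Agent.E8helper89.TSP

/-- a linear relation with a coefficient of largest absolute value -/
lemma relation {d : ℕ} (g : Fin (d + 1) → EuclideanSpace ℝ (Fin d) →L[ℝ] ℝ) :
    ∃ (j : Fin (d + 1)) (a : Fin d → ℝ), (∀ i, |a i| ≤ 1) ∧
      ∀ x, g j x = ∑ i, a i * g (j.succAbove i) x := by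
  classical
  have hdep : ¬ LinearIndependent ℝ g := by
    intro h
    have h1 := h.fintype_card_le_finrank
    have h2 : Module.finrank ℝ (EuclideanSpace ℝ (Fin d) →L[ℝ] ℝ) = d := by
      have e : (EuclideanSpace ℝ (Fin d) →L[ℝ] ℝ) ≃ₗ[ℝ]
          Module.Dual ℝ (EuclideanSpace ℝ (Fin d)) := (LinearMap.toContinuousLinearMap).symm
      rw [e.finrank_eq, Subspace.dual_finrank_eq, finrank_euclideanSpace, Fintype.card_fin]
    rw [h2, Fintype.card_fin] at h1
    omega
  rw [Fintype.not_linearIndependent_iff] at hdep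
  obtain ⟨lam, hsum, i0, hi0⟩ := hdep
  obtain ⟨j, hj⟩ := Finite.exists_max (fun i => |lam i|)
  have hj0 : lam j ≠ 0 := by
    intro h
    have h1 := hj i0
    rw [h, abs_zero] at h1
    exact hi0 (abs_nonpos_iff.1 h1)
  refine ⟨j, fun i => -(lam (j.succAbove i)) / lam j, fun i => ?_, fun x => ?_⟩
  · rw [abs_div, abs_neg, div_le_one (abs_pos.2 hj0)]
    exact hj _
  · have h1 := congrArg (fun f : EuclideanSpace ℝ (Fin d) →L[ℝ] ℝ => f x) hsum
    simp only [ContinuousLinearMap.coe_sum', Finset.sum_apply, ContinuousLinearMap.smul_apply,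
      smul_eq_mul, ContinuousLinearMap.zero_apply] at h1
    rw [Fin.sum_univ_succAbove _ j] at h1
    have h2 : ∑ i, -(lam (j.succAbove i)) / lam j * g (j.succAbove i) x =
        -(∑ i, lam (j.succAbove i) * g (j.succAbove i) x) / lam j := by
      rw [← Finset.sum_neg_distrib, Finset.sum_div]
      exact Finset.sum_congr rfl fun i _ => by ring
    rw [h2, eq_div_iff hj0]
    linarith

/-- **the bound for `d + 1` directions**, with a parallelotope with facets in these directions -/
theorem bound {d : ℕ} {K : Set (EuclideanSpace ℝ (Fin d))} (hKc : IsCompact K) (hKx : Convex ℝ K)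
    (hKi : (interior K).Nonempty) (F : Fin (d + 1) → EuclideanSpace ℝ (Fin d) →L[ℝ] ℝ)
    (hF0 : ∀ j, F j ≠ 0) (hF : ∀ x, (∀ j, F j x = 0) → x = 0)
    {T : Set (EuclideanSpace ℝ (Fin d))} (hT : TotallySeparable (Set.range F) T K) :
    ∃ (v : EuclideanSpace ℝ (Fin d)) (w : Fin d → EuclideanSpace ℝ (Fin d)),
      LinearIndependent ℝ w ∧ K ⊆ Par v w ∧ upperDensity T K ≤ volume K / volume (Par v w) := by
  classical
  choose ω l hω hl hav hcut using fun j => normal hKc hKx hKi (F j) (hF0 j)
  obtain ⟨j, a, ha, hrel⟩ := relation (fun j => ω j • F j)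
  have hG : ∀ x, (∀ i, (ω (j.succAbove i) • F (j.succAbove i)) x = 0) → x = 0 := by
    intro x hx
    apply hF
    intro k
    have h1 : (ω k • F k) x = 0 := by
      rcases Fin.eq_self_or_eq_succAbove j k with h | ⟨i, h⟩
      · rw [h, hrel x]
        exact Finset.sum_eq_zero fun i _ => by rw [hx i, mul_zero]
      · rw [h]; exact hx i
    rw [ContinuousLinearMap.smul_apply, smul_eq_mul] at h1
    exact (mul_eq_zero.1 h1).resolve_left (hω k).ne'
  refine dens_of hKc (fun i => ω (j.succAbove i) • F (j.succAbove i)) hG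
    (fun i => l (j.succAbove i)) (fun x hx i => hl _ x hx) T ?_
  intro S hST p q hpq hS
  refine box_count a ha (fun i t => (ω (j.succAbove i) • F (j.succAbove i)) t + l (j.succAbove i))
    (fun t => (ω j • F j) t + l j) (l j - ∑ i, a i * l (j.succAbove i)) ?_ S.card S rfl p q hpq hS ?_
  · intro t
    rw [hrel t]
    have : ∑ i, a i * ((ω (j.succAbove i) • F (j.succAbove i)) t + l (j.succAbove i)) =
        ∑ i, a i * (ω (j.succAbove i) • F (j.succAbove i)) t + ∑ i, a i * l (j.succAbove i) := by
      rw [← Finset.sum_add_distrib]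
      exact Finset.sum_congr rfl fun i _ => by ring
    rw [this]
    ring
  · intro t ht s hs hts
    obtain ⟨f, ⟨k, rfl⟩, hf0, c, hsep, hint⟩ := hT t (hST (Finset.mem_coe.2 ht)) s
      (hST (Finset.mem_coe.2 hs)) hts
    have h1 := hav k T c hint
    have h2 := hcut k t s c hsep
    rcases Fin.eq_self_or_eq_succAbove j k with h | ⟨i, h⟩
    · right
      subst h
      exact ⟨_, h2⟩
    · left
      subst h
      exact ⟨i, _, h1.mono hST, h2⟩

/-- comparison with the smallest parallelotope -/
lemma le_smallest {d : ℕ} {K T : Set (EuclideanSpace ℝ (Fin d))} {v : EuclideanSpace ℝ (Fin d)}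
    {w : Fin d → EuclideanSpace ℝ (Fin d)} (hs : IsSmallest K v w)
    (h : ∃ (v : EuclideanSpace ℝ (Fin d)) (w : Fin d → EuclideanSpace ℝ (Fin d)),
      LinearIndependent ℝ w ∧ K ⊆ Par v w ∧ upperDensity T K ≤ volume K / volume (Par v w)) :
    upperDensity T K ≤ volume K / volume (Par v w) := by
  obtain ⟨v', w', hw', hK', hle⟩ := h
  exact hle.trans (ENNReal.div_le_div_left (hs.2.2 v' w' hw' hK') _)

end Pool.Agent.E8helper89.TSP
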