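import Mathlib
import Pool.Agent.E8helper89.TSP.Main

/-!
# Totally separable packings: lattice packings (helper89)
-/

set_option autoImplicit false

open MeasureTheory Filter Topology

namespace Pool.Agent.E8helper89.TSP

section

variable {d : ℕ} {K : Set (EuclideanSpace ℝ (Fin d))}

/-- a functional which vanishes on a basis -/
lemma eq_zero_of_basis {b : Fin d → EuclideanSpace ℝ (Fin d)} (hb : LinearIndependent ℝ b)
    (f : EuclideanSpace ℝ (Fin d) →L[ℝ] ℝ) (h : ∀ i, f (b i) = 0) : f = 0 := by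
  have hspan : Submodule.span ℝ (Set.range b) = ⊤ :=
    hb.span_eq_top_of_card_eq_finrank' (by simp)
  ext x
  have hx : x ∈ Submodule.span ℝ (Set.range b) := by rw [hspan]; exact Submodule.mem_top
  show f x = 0
  induction hx using Submodule.span_induction with
  | mem x hx =>
    obtain ⟨i, rfl⟩ := hx
    exact h i
  | zero => exact map_zero f
  | add x y _ _ hx hy => rw [map_add, hx, hy, add_zero]
  | smul a x _ hx => rw [map_smul, hx, smul_zero]

/-- the values of a separating functional on the lattice -/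
lemma lat_values {x0 : EuclideanSpace ℝ (Fin d)} {b : Fin d → EuclideanSpace ℝ (Fin d)}
    (hb : LinearIndependent ℝ b) (g : EuclideanSpace ℝ (Fin d) →L[ℝ] ℝ) (hg : g ≠ 0) (l c : ℝ)
    (hav : Av (LatticeSet x0 b) (fun t => g t + l) c) :
    ∃ s : ℝ, 1 ≤ s ∧ ∀ i, ∃ m : ℤ, g (b i) = m * s := by
  classical
  let φ : (Fin d → ℤ) →+ ℝ :=
    { toFun := fun n => ∑ i, (n i : ℝ) * g (b i)
      map_zero' := by simp
      map_add' := fun n m => by
        rw [← Finset.sum_add_distrib]
        refine Finset.sum_congr rfl fun i _ => ?_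
        rw [Pi.add_apply]
        push_cast
        ring }
  have hval : ∀ n : Fin d → ℤ, g (x0 + ∑ i, (n i : ℝ) • b i) = g x0 + φ n := by
    intro n
    rw [map_add, map_sum]
    congr 1
    refine Finset.sum_congr rfl fun i _ => ?_
    rw [map_smul, smul_eq_mul]
  have hgap : ∀ y ∈ φ.range, g x0 + y + l + 1 ≤ c ∨ c ≤ g x0 + y + l := by
    rintro y ⟨n, rfl⟩
    have h1 := hav (x0 + ∑ i, (n i : ℝ) • b i) ⟨n, rfl⟩
    simp only at h1
    rw [hval n] at h1
    exact h1
  have hbi : ∀ i, g (b i) ∈ φ.range := by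
    intro i
    refine ⟨Pi.single i 1, ?_⟩
    show ∑ j, ((Pi.single i (1 : ℤ) : Fin d → ℤ) j : ℝ) * g (b j) = g (b i)
    rw [Finset.sum_eq_single i]
    · rw [Pi.single_eq_same]; simp
    · intro j _ hj
      rw [Pi.single_eq_of_ne hj]; simp
    · intro h
      exact absurd (Finset.mem_univ i) h
  rcases AddSubgroup.dense_or_cyclic φ.range with hd | ⟨a, ha⟩
  · exfalso
    have hlt : c - 1 - g x0 - l < c - g x0 - l := by linarith
    obtain ⟨y, hy, hy1, hy2⟩ := hd.exists_between hlt
    rcases hgap y hy with h | h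
    · linarith
    · linarith
  · have hmem : ∀ y, y ∈ φ.range ↔ ∃ m : ℤ, m • a = y := by
      intro y
      rw [ha, AddSubgroup.mem_closure_singleton]
    have ha0 : a ≠ 0 := by
      rintro rfl
      apply hg
      apply eq_zero_of_basis hb
      intro i
      obtain ⟨m, hm⟩ := (hmem _).1 (hbi i)
      rw [← hm, smul_zero]
    have hs0 : 0 < |a| := abs_pos.2 ha0
    have hmem' : ∀ m : ℤ, (m : ℝ) * |a| ∈ φ.range := by
      intro m
      rcases abs_choice a with h | h
      · rw [h, hmem]
        exact ⟨m, by rw [zsmul_eq_mul]⟩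
      · rw [h, hmem]
        exact ⟨-m, by rw [zsmul_eq_mul]; push_cast; ring⟩
    refine ⟨|a|, ?_, fun i => ?_⟩
    · by_contra hlt
      push Not at hlt
      have h1 := Int.lt_floor_add_one ((c - 1 - g x0 - l) / |a|)
      have h2 := Int.floor_le ((c - 1 - g x0 - l) / |a|)
      rw [div_lt_iff₀ hs0] at h1
      rw [le_div_iff₀ hs0] at h2
      rcases hgap _ (hmem' (⌊(c - 1 - g x0 - l) / |a|⌋ + 1)) with h | h
      · push_cast at h
        linarith
      · push_cast at h
        linarith
    · obtain ⟨m, hm⟩ := (hmem _).1 (hbi i)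
      rcases abs_choice a with h | h
      · exact ⟨m, by rw [h, ← hm, zsmul_eq_mul]⟩
      · exact ⟨-m, by rw [h, ← hm, zsmul_eq_mul]; push_cast; ring⟩

/-- **the bound for lattice packings** -/
theorem bound_lat (hKc : IsCompact K) (hKx : Convex ℝ K) (hKi : (interior K).Nonempty)
    (x0 : EuclideanSpace ℝ (Fin d)) (b : Fin d → EuclideanSpace ℝ (Fin d))
    (hb : LinearIndependent ℝ b) (hT : TotallySeparable Set.univ (LatticeSet x0 b) K) :
    ∃ (v : EuclideanSpace ℝ (Fin d)) (w : Fin d → EuclideanSpace ℝ (Fin d)),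
      LinearIndependent ℝ w ∧ K ⊆ Par v w ∧
        upperDensity (LatticeSet x0 b) K ≤ volume K / volume (Par v w) := by
  classical
  set M : Set (EuclideanSpace ℝ (Fin d) →L[ℝ] ℝ) := {g | ∃ l s : ℝ, 1 ≤ s ∧
    (∀ x ∈ K, l ≤ g x ∧ g x ≤ l + 1) ∧ ∀ i, ∃ m : ℤ, g (b i) = m * s} with hM
  -- every nonzero lattice vector is seen by a member of `M`
  have hsee : ∀ n : Fin d → ℤ, n ≠ 0 → ∃ g ∈ M, g (∑ i, (n i : ℝ) • b i) ≠ 0 := by
    intro n hn
    have hne : ∑ i, (n i : ℝ) • b i ≠ 0 := by
      intro h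
      apply hn
      have h1 := Fintype.linearIndependent_iff.1 hb (fun i => (n i : ℝ)) h
      ext i
      have := h1 i
      simp only [Int.cast_eq_zero] at this
      exact this
    obtain ⟨f, -, hf0, c, hsep, hint⟩ := hT x0 ⟨0, by simp⟩ (x0 + ∑ i, (n i : ℝ) • b i) ⟨n, rfl⟩
      (fun h => hne (by
        have := h.symm
        rwa [add_eq_left] at this))
    obtain ⟨ω, l, hω, hl, hav, hcut⟩ := normal hKc hKx hKi f hf0
    have h1 := hav _ c hint
    have h2 := hcut _ _ c hsep
    have hg0 : ω • f ≠ 0 := smul_ne_zero hω.ne' hf0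
    obtain ⟨s, hs, hs'⟩ := lat_values hb (ω • f) hg0 l _ h1
    refine ⟨ω • f, ⟨l, s, hs, hl, hs'⟩, ?_⟩
    intro h0
    unfold Cut at h2
    simp only [map_add, h0, add_zero] at h2
    rcases h2 with h2 | h2 <;> linarith [h2.1, h2.2]
  obtain ⟨f, hfM, hfspan, hfli⟩ := Submodule.exists_fun_fin_finrank_span_eq ℝ M
  have hdual : Module.finrank ℝ (EuclideanSpace ℝ (Fin d) →L[ℝ] ℝ) = d := by
    have e : (EuclideanSpace ℝ (Fin d) →L[ℝ] ℝ) ≃ₗ[ℝ]
        Module.Dual ℝ (EuclideanSpace ℝ (Fin d)) := (LinearMap.toContinuousLinearMap).symm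
    rw [e.finrank_eq, Subspace.dual_finrank_eq, finrank_euclideanSpace, Fintype.card_fin]
  generalize hk : Module.finrank ℝ (Submodule.span ℝ M) = k at f hfM hfspan hfli
  have hkd : k = d := by
    have hle : k ≤ d := by
      have := hfli.fintype_card_le_finrank
      rwa [Fintype.card_fin, hdual] at this
    by_contra hne
    have hlt : k < d := lt_of_le_of_ne hle hne
    choose l s hs hlK hm using hfM
    choose m hm using hm
    obtain ⟨n, hn0, hn⟩ : ∃ n : Fin d → ℤ, n ≠ 0 ∧ ∀ i, ∑ j, m i j * n j = 0 := by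
      rcases Nat.eq_zero_or_pos k with h0 | hpos
      · refine ⟨fun _ => 1, ?_, fun i => ?_⟩
        · intro h
          have := congrFun h ⟨0, by omega⟩
          simp at this
        · exact absurd i.2 (by omega)
      · obtain ⟨t, ht0, ht, -⟩ := Int.Matrix.exists_ne_zero_int_vec_norm_le
          (Matrix.of m) (by simpa using hlt) (by simpa using hpos)
        refine ⟨t, ht0, fun i => ?_⟩
        have := congrFun ht i
        simpa [Matrix.mulVec, dotProduct] using this
    obtain ⟨g, hgM, hg⟩ := hsee n hn0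
    apply hg
    have hgs : g ∈ Submodule.span ℝ (Set.range f) := by
      rw [hfspan]; exact Submodule.subset_span hgM
    have key : ∀ g ∈ Submodule.span ℝ (Set.range f), g (∑ i, (n i : ℝ) • b i) = 0 := by
      intro g hg
      induction hg using Submodule.span_induction with
      | mem x hx =>
        obtain ⟨i, rfl⟩ := hx
        rw [map_sum]
        have h1 : ∀ j, f i ((n j : ℝ) • b j) = s i * ((m i j * n j : ℤ) : ℝ) := by
          intro j
          rw [map_smul, hm i j, smul_eq_mul]
          push_cast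
          ring
        rw [Finset.sum_congr rfl fun j _ => h1 j, ← Finset.mul_sum]
        have h2 : (∑ j, ((m i j * n j : ℤ) : ℝ)) = ((∑ j, m i j * n j : ℤ) : ℝ) := by push_cast; rfl
        rw [h2, hn i]
        simp
      | zero => rfl
      | add x y _ _ hx hy =>
        show x _ + y _ = 0
        rw [hx, hy, add_zero]
      | smul a x _ hx =>
        show a • x _ = 0
        rw [hx, smul_zero]
    exact key g hgs
  subst hkd
  have htop : Submodule.span ℝ (Set.range f) = ⊤ :=
    hfli.span_eq_top_of_card_eq_finrank' (by rw [Fintype.card_fin, hdual])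
  choose l s hs hlK hm using hfM
  choose m hm using hm
  have hG : ∀ x, (∀ i, f i x = 0) → x = 0 := by
    intro x hx
    have key : ∀ g ∈ Submodule.span ℝ (Set.range f), g x = 0 := by
      intro g hg
      induction hg using Submodule.span_induction with
      | mem y hy =>
        obtain ⟨i, rfl⟩ := hy
        exact hx i
      | zero => rfl
      | add y z _ _ hy hz =>
        show y _ + z _ = 0
        rw [hy, hz, add_zero]
      | smul a y _ hy =>
        show a • y _ = 0
        rw [hy, smul_zero]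
    have h1 := key (innerSL ℝ x) (by rw [htop]; exact Submodule.mem_top)
    rw [innerSL_apply_apply] at h1
    exact inner_self_eq_zero.1 h1
  refine dens_of hKc f hG l (fun x hx i => hlK i x hx) _ ?_
  intro S hST p q hpq hS
  refine box_count (fun _ => 0) (fun _ => by simp) (fun i t => f i t + l i) (fun _ => 0) 0
    (fun t => by simp) S.card S rfl p q hpq hS ?_
  intro t ht t' ht' htt
  left
  obtain ⟨n, hn⟩ := hST (Finset.mem_coe.2 ht)
  obtain ⟨n', hn'⟩ := hST (Finset.mem_coe.2 ht')
  -- values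
  have hval : ∀ (i) (n : Fin k → ℤ), f i (x0 + ∑ j, (n j : ℝ) • b j) =
      f i x0 + ((∑ j, m i j * n j : ℤ) : ℝ) * s i := by
    intro i n
    rw [map_add, map_sum]
    congr 1
    push_cast
    rw [Finset.sum_mul]
    refine Finset.sum_congr rfl fun j _ => ?_
    rw [map_smul, hm i j, smul_eq_mul]
    ring
  obtain ⟨i, hi⟩ : ∃ i, f i t ≠ f i t' := by
    by_contra hcon
    push Not at hcon
    apply htt
    rw [← sub_eq_zero]
    apply hG
    intro i
    rw [map_sub, hcon i, sub_self]
  have hsi : 0 < s i := lt_of_lt_of_le one_pos (hs i)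
  -- the cut above a value
  have hcutA : ∀ z : ℤ, Av (S : Set (EuclideanSpace ℝ (Fin k))) (fun t => f i t + l i)
      (f i x0 + ((z : ℝ) + 1) * s i + l i) := by
    intro z u hu
    obtain ⟨nu, hnu⟩ := hST hu
    simp only
    rw [hnu, hval i nu]
    rcases le_or_gt (∑ j, m i j * nu j) z with h | h
    · left
      have h1 : ((∑ j, m i j * nu j : ℤ) : ℝ) ≤ (z : ℝ) := by exact_mod_cast h
      have h2 := mul_le_mul_of_nonneg_right h1 hsi.le
      nlinarith [hs i]
    · right
      have h1 : (z : ℝ) + 1 ≤ ((∑ j, m i j * nu j : ℤ) : ℝ) := by exact_mod_cast h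
      have h2 := mul_le_mul_of_nonneg_right h1 hsi.le
      linarith
  have key : ∀ a c : ℤ, a < c → f i x0 + (a : ℝ) * s i + l i + 1 ≤
      f i x0 + ((a : ℝ) + 1) * s i + l i ∧
      f i x0 + ((a : ℝ) + 1) * s i + l i ≤ f i x0 + (c : ℝ) * s i + l i := by
    intro a c hac
    have h1 : (a : ℝ) + 1 ≤ (c : ℝ) := by exact_mod_cast hac
    have h2 := mul_le_mul_of_nonneg_right h1 hsi.le
    constructor
    · nlinarith [hs i]
    · linarith
  have ht1 : f i t = f i x0 + ((∑ j, m i j * n j : ℤ) : ℝ) * s i := by rw [hn, hval i n]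
  have ht2 : f i t' = f i x0 + ((∑ j, m i j * n' j : ℤ) : ℝ) * s i := by rw [hn', hval i n']
  rcases lt_trichotomy (∑ j, m i j * n j) (∑ j, m i j * n' j) with h | h | h
  · refine ⟨i, _, hcutA (∑ j, m i j * n j), Or.inl ?_⟩
    simp only
    rw [ht1, ht2]
    exact key _ _ h
  · exact absurd (by rw [ht1, ht2, h]) hi
  · refine ⟨i, _, hcutA (∑ j, m i j * n' j), Or.inr ?_⟩
    simp only
    rw [ht1, ht2]
    exact key _ _ h

end

end Pool.Agent.E8helper89.TSP
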