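import Mathlib
import Pool.Agent.E8helper89.TSP.Lat
import Pool.Agent.E8helper89.TSP.Cnt2

/-!
# Totally separable packings: periodic packings with at most two members in a period (helper89)
-/

set_option autoImplicit false

open MeasureTheory Filter Topology

namespace Pool.Agent.E8helper89.TSP

section

variable {d : ℕ} {K : Set (EuclideanSpace ℝ (Fin d))}

/-- a normalised separating functional on a periodic set -/
structure IsDir (K T : Set (EuclideanSpace ℝ (Fin d))) (b : Fin d → EuclideanSpace ℝ (Fin d))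
    (g : EuclideanSpace ℝ (Fin d) →L[ℝ] ℝ) (l c s : ℝ) : Prop where
  w : ∀ x ∈ K, l ≤ g x ∧ g x ≤ l + 1
  lo : ∃ x ∈ K, g x = l
  hi : ∃ x ∈ K, g x = l + 1
  av : Av T (fun t => g t + l) c
  s1 : 1 ≤ s
  val : ∀ i, ∃ m : ℤ, g (b i) = m * s
  vec : ∃ n : Fin d → ℤ, g (∑ i, (n i : ℝ) • b i) = s

/-- the values of a separating functional on the lattice -/
lemma lat_values2 {x0 : EuclideanSpace ℝ (Fin d)} {b : Fin d → EuclideanSpace ℝ (Fin d)}
    (hb : LinearIndependent ℝ b) (g : EuclideanSpace ℝ (Fin d) →L[ℝ] ℝ) (hg : g ≠ 0) (l c : ℝ)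
    (hav : Av (LatticeSet x0 b) (fun t => g t + l) c) :
    ∃ s : ℝ, 1 ≤ s ∧ (∀ i, ∃ m : ℤ, g (b i) = m * s) ∧
      ∃ n : Fin d → ℤ, g (∑ i, (n i : ℝ) • b i) = s := by
  classical
  let φ : (Fin d → ℤ) →+ ℝ :=
    { toFun := fun n => ∑ i, (n i : ℝ) * g (b i)
      map_zero' := by simp
      map_add' := fun n m => by
        rw [← Finset.sum_add_distrib]
        refine Finset.sum_congr rfl fun i _ => ?_
        rw [Pi.add_apply]
        push_cast
        ring }
  have hval0 : ∀ n : Fin d → ℤ, g (∑ i, (n i : ℝ) • b i) = φ n := by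
    intro n
    rw [map_sum]
    refine Finset.sum_congr rfl fun i _ => ?_
    rw [map_smul, smul_eq_mul]
  have hval : ∀ n : Fin d → ℤ, g (x0 + ∑ i, (n i : ℝ) • b i) = g x0 + φ n := by
    intro n
    rw [map_add, hval0]
  have hgap : ∀ y ∈ φ.range, g x0 + y + l + 1 ≤ c ∨ c ≤ g x0 + y + l := by
    rintro y ⟨n, rfl⟩
    have h1 := hav (x0 + ∑ i, (n i : ℝ) • b i) ⟨n, rfl⟩
    simp only at h1
    rw [hval n] at h1
    exact h1
  have hbi : ∀ i, g (b i) ∈ φ.range := by
    intro i
    refine ⟨Pi.single i 1, ?_⟩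
    show ∑ j, ((Pi.single i (1 : ℤ) : Fin d → ℤ) j : ℝ) * g (b j) = g (b i)
    rw [Finset.sum_eq_single i]
    · rw [Pi.single_eq_same]; simp
    · intro j _ hj
      rw [Pi.single_eq_of_ne hj]; simp
    · intro h
      exact absurd (Finset.mem_univ i) h
  rcases AddSubgroup.dense_or_cyclic φ.range with hd | ⟨a, ha⟩
  · exfalso
    have hlt : c - 1 - g x0 - l < c - g x0 - l := by linarith
    obtain ⟨y, hy, hy1, hy2⟩ := hd.exists_between hlt
    rcases hgap y hy with h | h
    · linarith
    · linarith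
  · have hmem : ∀ y, y ∈ φ.range ↔ ∃ m : ℤ, m • a = y := by
      intro y
      rw [ha, AddSubgroup.mem_closure_singleton]
    have ha0 : a ≠ 0 := by
      rintro rfl
      apply hg
      apply eq_zero_of_basis hb
      intro i
      obtain ⟨m, hm⟩ := (hmem _).1 (hbi i)
      rw [← hm, smul_zero]
    have hs0 : 0 < |a| := abs_pos.2 ha0
    have hmem' : ∀ m : ℤ, (m : ℝ) * |a| ∈ φ.range := by
      intro m
      rcases abs_choice a with h | h
      · rw [h, hmem]
        exact ⟨m, by rw [zsmul_eq_mul]⟩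
      · rw [h, hmem]
        exact ⟨-m, by rw [zsmul_eq_mul]; push_cast; ring⟩
    refine ⟨|a|, ?_, fun i => ?_, ?_⟩
    · by_contra hlt
      push Not at hlt
      have h1 := Int.lt_floor_add_one ((c - 1 - g x0 - l) / |a|)
      have h2 := Int.floor_le ((c - 1 - g x0 - l) / |a|)
      rw [div_lt_iff₀ hs0] at h1
      rw [le_div_iff₀ hs0] at h2
      rcases hgap _ (hmem' (⌊(c - 1 - g x0 - l) / |a|⌋ + 1)) with h | h
      · push_cast at h
        linarith
      · push_cast at h
        linarith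
    · obtain ⟨m, hm⟩ := (hmem _).1 (hbi i)
      rcases abs_choice a with h | h
      · exact ⟨m, by rw [h, ← hm, zsmul_eq_mul]⟩
      · exact ⟨-m, by rw [h, ← hm, zsmul_eq_mul]; push_cast; ring⟩
    · obtain ⟨n, hn⟩ := hmem' 1
      refine ⟨n, ?_⟩
      rw [hval0, hn]
      simp

/-- any two members are separated by a normalised functional -/
lemma exists_dir (hKc : IsCompact K) (hKx : Convex ℝ K) (hKi : (interior K).Nonempty)
    {b : Fin d → EuclideanSpace ℝ (Fin d)} (hb : LinearIndependent ℝ b)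
    {T : Set (EuclideanSpace ℝ (Fin d))} {x0 : EuclideanSpace ℝ (Fin d)}
    (hx0 : LatticeSet x0 b ⊆ T) (hT : TotallySeparable Set.univ T K)
    {t r : EuclideanSpace ℝ (Fin d)} (ht : t ∈ T) (hr : r ∈ T) (htr : t ≠ r) :
    ∃ g l c s, IsDir K T b g l c s ∧ Cut (fun t => g t + l) c t r := by
  obtain ⟨f, -, hf, c, hsep, hint⟩ := hT t ht r hr htr
  have hne : K.Nonempty := hKi.mono interior_subset
  obtain ⟨x, hx, hxm⟩ := hKc.exists_isMinOn hne f.continuous.continuousOn
  obtain ⟨y, hy, hym⟩ := hKc.exists_isMaxOn hne f.continuous.continuousOn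
  obtain ⟨x', hx', y', hy', hxy'⟩ := width_pos hKi f hf
  have h1 : f x < f y := lt_of_le_of_lt (hxm hx') (lt_of_lt_of_le hxy' (hym hy'))
  have hw : 0 < f y - f x := sub_pos.2 h1
  have hω : 0 < (f y - f x)⁻¹ := inv_pos.2 hw
  have hyx : (f y - f x)⁻¹ * f y = (f y - f x)⁻¹ * f x + 1 := by
    field_simp
    ring
  have hg0 : (f y - f x)⁻¹ • f ≠ 0 := smul_ne_zero hω.ne' hf
  have hav : Av T (fun t => ((f y - f x)⁻¹ • f) t + (f y - f x)⁻¹ * f x)
      ((f y - f x)⁻¹ * c) := by
    intro u hu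
    have h2 := avoid hKc hKx hKi f hx hy u c (hint u hu)
    simp only [ContinuousLinearMap.smul_apply, smul_eq_mul]
    rcases h2 with h2 | h2
    · left
      have h3 := mul_le_mul_of_nonneg_left h2 hω.le
      rw [mul_add, hyx] at h3
      linarith
    · right
      have h3 := mul_le_mul_of_nonneg_left h2 hω.le
      rw [mul_add] at h3
      linarith
  obtain ⟨s, hs, hsv, hsn⟩ := lat_values2 hb _ hg0 _ _ (hav.mono hx0)
  refine ⟨_, _, _, s, ⟨fun z hz => ?_, ⟨x, hx, ?_⟩, ⟨y, hy, ?_⟩, hav, hs, hsv, hsn⟩, ?_⟩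
  · rw [ContinuousLinearMap.smul_apply, smul_eq_mul, ← hyx]
    exact ⟨mul_le_mul_of_nonneg_left (hxm hz) hω.le, mul_le_mul_of_nonneg_left (hym hz) hω.le⟩
  · rw [ContinuousLinearMap.smul_apply, smul_eq_mul]
  · rw [ContinuousLinearMap.smul_apply, smul_eq_mul, hyx]
  · have key : ∀ t s : EuclideanSpace ℝ (Fin d),
        ((∀ z ∈ (fun x => t + x) '' K, f z ≤ c) ∧ ∀ z ∈ (fun x => s + x) '' K, c ≤ f z) →
        (f y - f x)⁻¹ * f t + (f y - f x)⁻¹ * f x + 1 ≤ (f y - f x)⁻¹ * c ∧
          (f y - f x)⁻¹ * c ≤ (f y - f x)⁻¹ * f s + (f y - f x)⁻¹ * f x := by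
      rintro t s ⟨h2, h3⟩
      have h4 := h2 (t + y) ⟨y, hy, rfl⟩
      have h5 := h3 (s + x) ⟨x, hx, rfl⟩
      rw [map_add] at h4 h5
      have h6 := mul_le_mul_of_nonneg_left h4 hω.le
      have h7 := mul_le_mul_of_nonneg_left h5 hω.le
      rw [mul_add, hyx] at h6
      rw [mul_add] at h7
      exact ⟨by linarith, h7⟩
    unfold Cut
    simp only [ContinuousLinearMap.smul_apply, smul_eq_mul]
    rcases hsep with hc | hc
    · exact Or.inl (key t r hc)
    · exact Or.inr (key r t hc)

/-- there are only finitely many normalised functionals -/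
lemma finite_dir (hKi : (interior K).Nonempty) {b : Fin d → EuclideanSpace ℝ (Fin d)}
    (hb : LinearIndependent ℝ b) (T : Set (EuclideanSpace ℝ (Fin d))) :
    {g | ∃ l c s, IsDir K T b g l c s}.Finite := by
  classical
  obtain ⟨z, hz⟩ := hKi
  have hε : ∀ k, ∃ ε : ℝ, 0 < ε ∧ z + ε • b k ∈ K := by
    intro k
    have h1 : Tendsto (fun ε : ℝ => z + ε • b k) (𝓝 0) (𝓝 (z + (0 : ℝ) • b k)) :=
      (continuous_const.add (continuous_id.smul continuous_const)).tendsto 0
    rw [zero_smul, add_zero] at h1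
    have h2 : ∀ᶠ ε : ℝ in 𝓝 0, z + ε • b k ∈ K :=
      h1 (mem_interior_iff_mem_nhds.1 hz)
    obtain ⟨r, hr, hr'⟩ := Metric.eventually_nhds_iff.1 h2
    refine ⟨r / 2, by positivity, hr' ?_⟩
    rw [Real.dist_eq, sub_zero, abs_of_pos (by linarith)]
    linarith
  choose ε hε hεK using hε
  have hsel : ∀ g : EuclideanSpace ℝ (Fin d) →L[ℝ] ℝ, ∃ m : Fin d → ℤ,
      (∃ l c s, IsDir K T b g l c s) → ∃ l c s, IsDir K T b g l c s ∧ ∀ k, g (b k) = m k * s := by
    intro g
    by_cases h : ∃ l c s, IsDir K T b g l c s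
    · obtain ⟨l, c, s, h⟩ := h
      choose m hm using h.val
      exact ⟨m, fun _ => ⟨l, c, s, h, hm⟩⟩
    · exact ⟨0, fun h' => absurd h' h⟩
  choose ψ hψ using hsel
  refine Set.Finite.of_injOn (f := ψ) (t := Set.Icc (fun k => -⌈1 / ε k⌉) (fun k => ⌈1 / ε k⌉))
    ?_ ?_ (Set.finite_Icc _ _)
  · intro g hg
    obtain ⟨l, c, s, h, hm⟩ := hψ g hg
    have hbd : ∀ k, |(ψ g k : ℝ)| ≤ 1 / ε k := by
      intro k
      have h1 := h.w z (interior_subset hz)
      have h2 := h.w _ (hεK k)
      rw [map_add, map_smul, smul_eq_mul] at h2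
      have h3 : |ε k * g (b k)| ≤ 1 := by
        rw [abs_le]
        constructor <;> linarith [h1.1, h1.2, h2.1, h2.2]
      rw [abs_mul, abs_of_pos (hε k)] at h3
      rw [le_div_iff₀ (hε k)]
      have h4 : |(ψ g k : ℝ)| ≤ |g (b k)| := by
        rw [hm k, abs_mul, abs_of_pos (lt_of_lt_of_le one_pos h.s1)]
        exact le_mul_of_one_le_right (abs_nonneg _) h.s1
      calc |(ψ g k : ℝ)| * ε k ≤ |g (b k)| * ε k := by
            have := (hε k).le
            gcongr
        _ = ε k * |g (b k)| := mul_comm _ _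
        _ ≤ 1 := h3
    rw [Set.mem_Icc, Pi.le_def, Pi.le_def]
    refine ⟨fun k => ?_, fun k => ?_⟩
    · have h1 := (abs_le.1 (hbd k)).1
      have h2 : (-⌈1 / ε k⌉ : ℤ) ≤ ψ g k := by
        have h3 : (-((⌈1 / ε k⌉ : ℤ) : ℝ)) ≤ (ψ g k : ℝ) := by
          linarith [Int.le_ceil (1 / ε k)]
        exact_mod_cast h3
      exact h2
    · have h1 := (abs_le.1 (hbd k)).2
      have h3 : (ψ g k : ℝ) ≤ ((⌈1 / ε k⌉ : ℤ) : ℝ) := by
        linarith [Int.le_ceil (1 / ε k)]
      exact_mod_cast h3
  · intro g hg g' hg' heq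
    obtain ⟨l, c, s, h, hm⟩ := hψ g hg
    obtain ⟨l', c', s', h', hm'⟩ := hψ g' hg'
    have hs : 0 < s := lt_of_lt_of_le one_pos h.s1
    have hs' : 0 < s' := lt_of_lt_of_le one_pos h'.s1
    have e1 : s' • g - s • g' = 0 := by
      apply eq_zero_of_basis hb
      intro k
      show s' • g (b k) - s • g' (b k) = 0
      rw [hm k, hm' k, heq, smul_eq_mul, smul_eq_mul]
      ring
    have e2 : ∀ x, s' * g x = s * g' x := by
      intro x
      have h3 : s' • g x - s • g' x = 0 :=
        congrArg (fun f : EuclideanSpace ℝ (Fin d) →L[ℝ] ℝ => f x) e1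
      rw [smul_eq_mul, smul_eq_mul] at h3
      linarith
    obtain ⟨x, hx, hxl⟩ := h.lo
    obtain ⟨y, hy, hyl⟩ := h.hi
    obtain ⟨x', hx', hxl'⟩ := h'.lo
    obtain ⟨y', hy', hyl'⟩ := h'.hi
    have h1 : s' ≤ s := by
      have h3 : g' y - g' x ≤ 1 := by linarith [(h'.w y hy).2, (h'.w x hx).1]
      have h4 : s' * (g y - g x) = s * (g' y - g' x) := by
        have := e2 x
        have := e2 y
        linarith
      rw [hyl, hxl] at h4
      nlinarith
    have h2 : s ≤ s' := by
      have h3 : g y' - g x' ≤ 1 := by linarith [(h.w y' hy').2, (h.w x' hx').1]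
      have h4 : s' * (g y' - g x') = s * (g' y' - g' x') := by
        have := e2 x'
        have := e2 y'
        linarith
      rw [hyl', hxl'] at h4
      nlinarith
    have h5 : s = s' := le_antisymm h2 h1
    ext x
    have h6 := e2 x
    rw [h5] at h6
    exact mul_left_cancel₀ hs'.ne' h6

/-- a system of functionals without common zero -/
lemma exists_li {b : Fin d → EuclideanSpace ℝ (Fin d)}
    (M : Set (EuclideanSpace ℝ (Fin d) →L[ℝ] ℝ))
    (hsee : ∀ n : Fin d → ℤ, n ≠ 0 → ∃ g ∈ M, g (∑ i, (n i : ℝ) • b i) ≠ 0)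
    (hval : ∀ g ∈ M, ∃ s : ℝ, ∀ i, ∃ m : ℤ, g (b i) = m * s) :
    ∃ f : Fin d → EuclideanSpace ℝ (Fin d) →L[ℝ] ℝ, (∀ i, f i ∈ M) ∧
      ∀ x, (∀ i, f i x = 0) → x = 0 := by
  classical
  obtain ⟨f, hfM, hfspan, hfli⟩ := Submodule.exists_fun_fin_finrank_span_eq ℝ M
  have hdual : Module.finrank ℝ (EuclideanSpace ℝ (Fin d) →L[ℝ] ℝ) = d := by
    have e : (EuclideanSpace ℝ (Fin d) →L[ℝ] ℝ) ≃ₗ[ℝ]
        Module.Dual ℝ (EuclideanSpace ℝ (Fin d)) := (LinearMap.toContinuousLinearMap).symm
    rw [e.finrank_eq, Subspace.dual_finrank_eq, finrank_euclideanSpace, Fintype.card_fin]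
  generalize hk : Module.finrank ℝ (Submodule.span ℝ M) = k at f hfM hfspan hfli
  have hkd : k = d := by
    have hle : k ≤ d := by
      have := hfli.fintype_card_le_finrank
      rwa [Fintype.card_fin, hdual] at this
    by_contra hne
    have hlt : k < d := lt_of_le_of_ne hle hne
    choose s hm using fun i => hval (f i) (hfM i)
    choose m hm using hm
    obtain ⟨n, hn0, hn⟩ : ∃ n : Fin d → ℤ, n ≠ 0 ∧ ∀ i, ∑ j, m i j * n j = 0 := by
      rcases Nat.eq_zero_or_pos k with h0 | hpos
      · refine ⟨fun _ => 1, ?_, fun i => ?_⟩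
        · intro h
          have := congrFun h ⟨0, by omega⟩
          simp at this
        · exact absurd i.2 (by omega)
      · obtain ⟨t, ht0, ht, -⟩ := Int.Matrix.exists_ne_zero_int_vec_norm_le
          (Matrix.of m) (by simpa using hlt) (by simpa using hpos)
        refine ⟨t, ht0, fun i => ?_⟩
        have := congrFun ht i
        simpa [Matrix.mulVec, dotProduct] using this
    obtain ⟨g, hgM, hg⟩ := hsee n hn0
    apply hg
    have hgs : g ∈ Submodule.span ℝ (Set.range f) := by
      rw [hfspan]; exact Submodule.subset_span hgM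
    have key : ∀ g ∈ Submodule.span ℝ (Set.range f), g (∑ i, (n i : ℝ) • b i) = 0 := by
      intro g hg
      induction hg using Submodule.span_induction with
      | mem x hx =>
        obtain ⟨i, rfl⟩ := hx
        rw [map_sum]
        have h1 : ∀ j, f i ((n j : ℝ) • b j) = s i * ((m i j * n j : ℤ) : ℝ) := by
          intro j
          rw [map_smul, hm i j, smul_eq_mul]
          push_cast
          ring
        rw [Finset.sum_congr rfl fun j _ => h1 j, ← Finset.mul_sum]
        have h2 : (∑ j, ((m i j * n j : ℤ) : ℝ)) = ((∑ j, m i j * n j : ℤ) : ℝ) := by push_cast; rfl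
        rw [h2, hn i]
        simp
      | zero => rfl
      | add x y _ _ hx hy =>
        show x _ + y _ = 0
        rw [hx, hy, add_zero]
      | smul a x _ hx =>
        show a • x _ = 0
        rw [hx, smul_zero]
    exact key g hgs
  subst hkd
  refine ⟨f, hfM, ?_⟩
  have htop : Submodule.span ℝ (Set.range f) = ⊤ :=
    hfli.span_eq_top_of_card_eq_finrank' (by rw [Fintype.card_fin, hdual])
  intro x hx
  have key : ∀ g ∈ Submodule.span ℝ (Set.range f), g x = 0 := by
    intro g hg
    induction hg using Submodule.span_induction with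
    | mem y hy =>
      obtain ⟨i, rfl⟩ := hy
      exact hx i
    | zero => rfl
    | add y z _ _ hy hz =>
      show y _ + z _ = 0
      rw [hy, hz, add_zero]
    | smul a y _ hy =>
      show a • y _ = 0
      rw [hy, smul_zero]
  have h1 := key (innerSL ℝ x) (by rw [htop]; exact Submodule.mem_top)
  rw [innerSL_apply_apply] at h1
  exact inner_self_eq_zero.1 h1

/-- a system with determinant of largest absolute value -/
lemma exists_best {b : Fin d → EuclideanSpace ℝ (Fin d)} (hb : LinearIndependent ℝ b)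
    (M : Set (EuclideanSpace ℝ (Fin d) →L[ℝ] ℝ)) (hM : M.Finite)
    (h0 : ∃ f : Fin d → EuclideanSpace ℝ (Fin d) →L[ℝ] ℝ, (∀ i, f i ∈ M) ∧
      ∀ x, (∀ i, f i x = 0) → x = 0) :
    ∃ J : Fin d → EuclideanSpace ℝ (Fin d) →L[ℝ] ℝ, (∀ i, J i ∈ M) ∧
      (∀ x, (∀ i, J i x = 0) → x = 0) ∧
      ∀ g ∈ M, ∃ a : Fin d → ℝ, (∀ i, |a i| ≤ 1) ∧ ∀ x, g x = ∑ i, a i * J i x := by
  classical
  set D : (Fin d → EuclideanSpace ℝ (Fin d) →L[ℝ] ℝ) → Matrix (Fin d) (Fin d) ℝ :=
    fun J => Matrix.of fun i k => J i (b k) with hD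
  obtain ⟨f, hfM, hf⟩ := h0
  have hfin : {J : Fin d → EuclideanSpace ℝ (Fin d) →L[ℝ] ℝ | ∀ i, J i ∈ M}.Finite :=
    Set.Finite.pi' fun _ => hM
  obtain ⟨J, hJ, hmax⟩ := Set.exists_max_image _ (fun J => |(D J).det|) hfin ⟨f, hfM⟩
  have hfdet : (D f).det ≠ 0 := by
    intro h
    obtain ⟨c, hc0, hc⟩ := Matrix.exists_mulVec_eq_zero_iff.2 h
    apply hc0
    have h1 : ∑ k, c k • b k = 0 := by
      apply hf
      intro i
      have h2 := congrFun hc i
      rw [map_sum]
      have h3 : (D f).mulVec c i = ∑ k, f i (b k) * c k := rfl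
      rw [h3] at h2
      rw [Pi.zero_apply] at h2
      rw [← h2]
      refine Finset.sum_congr rfl fun k _ => ?_
      rw [map_smul, smul_eq_mul, mul_comm]
    ext k
    exact Fintype.linearIndependent_iff.1 hb c h1 k
  have hJdet : (D J).det ≠ 0 := by
    intro h
    have h1 : |(D f).det| ≤ |(D J).det| := hmax f hfM
    rw [h, abs_zero] at h1
    exact hfdet (abs_nonpos_iff.1 h1)
  have hunit : IsUnit (D J).det := isUnit_iff_ne_zero.2 hJdet
  have hspan : Submodule.span ℝ (Set.range b) = ⊤ :=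
    hb.span_eq_top_of_card_eq_finrank' (by simp)
  refine ⟨J, hJ, fun x hx => ?_, fun g hg => ?_⟩
  · have hx' : x ∈ Submodule.span ℝ (Set.range b) := by rw [hspan]; exact Submodule.mem_top
    obtain ⟨c, rfl⟩ := (Submodule.mem_span_range_iff_exists_fun ℝ).1 hx'
    have h1 : (D J).mulVec c = 0 := by
      ext i
      have h2 := hx i
      rw [map_sum] at h2
      have h3 : (D J).mulVec c i = ∑ k, J i (b k) * c k := rfl
      rw [h3, Pi.zero_apply, ← h2]
      refine Finset.sum_congr rfl fun k _ => ?_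
      rw [map_smul, smul_eq_mul, mul_comm]
    have h2 : c = 0 := by
      have h3 := congrArg (fun v => (D J)⁻¹.mulVec v) h1
      simp only [Matrix.mulVec_mulVec, Matrix.nonsing_inv_mul _ hunit, Matrix.one_mulVec,
        Matrix.mulVec_zero] at h3
      exact h3
    rw [h2]
    simp
  · set γ : Fin d → ℝ := fun k => g (b k) with hγ
    set a : Fin d → ℝ := Matrix.vecMul γ (D J)⁻¹ with ha
    have h1 : Matrix.vecMul a (D J) = γ := by
      rw [ha, Matrix.vecMul_vecMul, Matrix.nonsing_inv_mul _ hunit, Matrix.vecMul_one]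
    have h2 : ∀ k, ∑ i, a i * J i (b k) = g (b k) := fun k => congrFun h1 k
    refine ⟨a, fun i => ?_, fun x => ?_⟩
    · have h3 : ((D J).updateRow i γ).det = a i * (D J).det := by
        have h4 : γ = ∑ k, a k • (D J) k := by
          ext j
          rw [Finset.sum_apply]
          exact (h2 j).symm
        rw [h4, Matrix.det_updateRow_sum, smul_eq_mul]
      have h5 : (D J).updateRow i γ = D (Function.update J i g) := by
        ext p q
        by_cases hp : p = i
        · subst hp
          rw [Matrix.updateRow_self, hD]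
          simp [hγ]
        · rw [Matrix.updateRow_ne hp, hD]
          simp [Function.update_of_ne hp]
      have h6 : |(D (Function.update J i g)).det| ≤ |(D J).det| := hmax (Function.update J i g) (by
        intro p
        by_cases hp : p = i
        · subst hp; rw [Function.update_self]; exact hg
        · rw [Function.update_of_ne hp]; exact hJ p)
      rw [← h5, h3, abs_mul] at h6
      have h7 : 0 < |(D J).det| := abs_pos.2 hJdet
      by_contra hlt
      push Not at hlt
      nlinarith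
    · have h3 : g - ∑ i, a i • J i = 0 := by
        apply eq_zero_of_basis hb
        intro k
        rw [ContinuousLinearMap.sub_apply, ContinuousLinearMap.sum_apply]
        simp only [ContinuousLinearMap.smul_apply, smul_eq_mul]
        rw [h2 k, sub_self]
      have h4 := congrArg (fun f : EuclideanSpace ℝ (Fin d) →L[ℝ] ℝ => f x) h3
      simp only [ContinuousLinearMap.sub_apply, ContinuousLinearMap.sum_apply,
        ContinuousLinearMap.smul_apply, smul_eq_mul, ContinuousLinearMap.zero_apply] at h4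
      linarith

/-- **the bound for periodic packings with at most two members in a period** -/
theorem bound_per (hKc : IsCompact K) (hKx : Convex ℝ K) (hKi : (interior K).Nonempty)
    (x0 x1 : EuclideanSpace ℝ (Fin d)) (b : Fin d → EuclideanSpace ℝ (Fin d))
    (hb : LinearIndependent ℝ b)
    (hT : TotallySeparable Set.univ (LatticeSet x0 b ∪ LatticeSet x1 b) K) :
    ∃ (v : EuclideanSpace ℝ (Fin d)) (w : Fin d → EuclideanSpace ℝ (Fin d)),
      LinearIndependent ℝ w ∧ K ⊆ Par v w ∧
        upperDensity (LatticeSet x0 b ∪ LatticeSet x1 b) K ≤ volume K / volume (Par v w) := by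
  classical
  set T := LatticeSet x0 b ∪ LatticeSet x1 b with hTdef
  have hsub : LatticeSet x0 b ⊆ T := Set.subset_union_left
  have hper : ∀ t ∈ T, ∀ n : Fin d → ℤ, t + ∑ i, (n i : ℝ) • b i ∈ T := by
    intro t ht n
    have key : ∀ x : EuclideanSpace ℝ (Fin d), t ∈ LatticeSet x b →
        t + ∑ i, (n i : ℝ) • b i ∈ LatticeSet x b := by
      rintro x ⟨m, rfl⟩
      refine ⟨m + n, ?_⟩
      rw [add_assoc, ← Finset.sum_add_distrib]
      congr 1
      refine Finset.sum_congr rfl fun i _ => ?_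
      rw [← add_smul, Pi.add_apply]
      push_cast
      rfl
    rcases ht with ht | ht
    · exact Or.inl (key x0 ht)
    · exact Or.inr (key x1 ht)
  set M : Set (EuclideanSpace ℝ (Fin d) →L[ℝ] ℝ) := {g | ∃ l c s, IsDir K T b g l c s} with hM
  have hMfin : M.Finite := finite_dir hKi hb T
  have hx0T : x0 ∈ T := hsub ⟨0, by simp⟩
  have hsee : ∀ n : Fin d → ℤ, n ≠ 0 → ∃ g ∈ M, g (∑ i, (n i : ℝ) • b i) ≠ 0 := by
    intro n hn
    have hne : ∑ i, (n i : ℝ) • b i ≠ 0 := by
      intro h
      apply hn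
      have h1 := Fintype.linearIndependent_iff.1 hb (fun i => (n i : ℝ)) h
      ext i
      have := h1 i
      simp only [Int.cast_eq_zero] at this
      exact this
    obtain ⟨g, l, c, s, hg, hcut⟩ := exists_dir hKc hKx hKi hb hsub hT hx0T (hper x0 hx0T n)
      (fun h => hne (by
        have := h.symm
        rwa [add_eq_left] at this))
    refine ⟨g, ⟨l, c, s, hg⟩, ?_⟩
    intro h0
    unfold Cut at hcut
    simp only [map_add, h0, add_zero] at hcut
    rcases hcut with h2 | h2 <;> linarith [h2.1, h2.2]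
  obtain ⟨J, hJM, hJ0, hJa⟩ := exists_best hb M hMfin (exists_li M hsee (by
    rintro g ⟨l, c, s, hg⟩
    exact ⟨s, hg.val⟩))
  choose l c s hdir using hJM
  refine dens_of hKc J hJ0 l (fun x hx i => (hdir i).w x hx) T ?_
  intro S hST p q hpq hS
  -- the shifted cuts
  have hshift : ∀ (i : Fin d) (z : ℤ), Av T (fun t => J i t + l i) (c i + z * s i) := by
    intro i z u hu
    obtain ⟨n, hn⟩ := (hdir i).vec
    have h1 := (hdir i).av (u + ∑ k, ((-z * n k : ℤ) : ℝ) • b k) (by
      have := hper u hu (fun k => -z * n k)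
      exact this)
    have h2 : J i (∑ k, ((-z * n k : ℤ) : ℝ) • b k) = -z * s i := by
      rw [← hn, map_sum, map_sum, Finset.mul_sum]
      refine Finset.sum_congr rfl fun k _ => ?_
      rw [map_smul, map_smul, smul_eq_mul, smul_eq_mul]
      push_cast
      ring
    simp only [map_add, h2] at h1
    simp only
    rcases h1 with h1 | h1
    · left; linarith
    · right; linarith
  -- two members which differ by a lattice vector
  have hlatcut : ∀ t ∈ T, ∀ r ∈ T, t ≠ r → (∃ n : Fin d → ℤ, r = t + ∑ i, (n i : ℝ) • b i) →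
      ∃ i e, Av (S : Set (EuclideanSpace ℝ (Fin d))) (fun t => J i t + l i) e ∧
        Cut (fun t => J i t + l i) e t r := by
    intro t ht r hr htr hn
    obtain ⟨n, hn⟩ := hn
    obtain ⟨i, hi⟩ : ∃ i, J i t ≠ J i r := by
      by_contra hcon
      push Not at hcon
      apply htr
      rw [← sub_eq_zero]
      apply hJ0
      intro i
      rw [map_sub, hcon i, sub_self]
    have hsi : 0 < s i := lt_of_lt_of_le one_pos (hdir i).s1
    choose m hm using (hdir i).val
    have hr' : J i r = J i t + ((∑ k, m k * n k : ℤ) : ℝ) * s i := by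
      rw [hn, map_add, map_sum]
      congr 1
      push_cast
      rw [Finset.sum_mul]
      refine Finset.sum_congr rfl fun k _ => ?_
      rw [map_smul, hm k, smul_eq_mul]
      ring
    -- a cut just above a value
    have key : ∀ t ∈ T, ∀ (y : ℝ) (k : ℤ), 0 < k → y = J i t + (k : ℝ) * s i →
        ∃ e, Av T (fun t => J i t + l i) e ∧ J i t + l i + 1 ≤ e ∧ e ≤ y + l i := by
      intro t ht y k hk hy
      have h1 := Int.le_ceil ((J i t + l i + 1 - c i) / s i)
      have h2 := Int.ceil_lt_add_one ((J i t + l i + 1 - c i) / s i)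
      rw [div_le_iff₀ hsi] at h1
      refine ⟨_, hshift i ⌈(J i t + l i + 1 - c i) / s i⌉, by linarith, ?_⟩
      have h3 : (⌈(J i t + l i + 1 - c i) / s i⌉ - 1 : ℝ) < (J i t + l i + 1 - c i) / s i := by
        linarith
      rw [lt_div_iff₀ hsi] at h3
      have h4 := hshift i (⌈(J i t + l i + 1 - c i) / s i⌉ - 1) t ht
      simp only at h4
      push_cast at h4
      have h5 : c i + ((⌈(J i t + l i + 1 - c i) / s i⌉ : ℝ) - 1) * s i ≤ J i t + l i := by
        rcases h4 with h4 | h4
        · linarith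
        · exact h4
      have h6 : (1 : ℝ) ≤ (k : ℝ) := by exact_mod_cast hk
      have h7 : 1 * s i ≤ (k : ℝ) * s i := mul_le_mul_of_nonneg_right h6 hsi.le
      rw [hy]
      linarith
    rcases lt_trichotomy (∑ k, m k * n k) 0 with h | h | h
    · obtain ⟨e, he, he1, he2⟩ := key r hr (J i t) (-(∑ k, m k * n k)) (by omega) (by
        rw [hr']; push_cast; ring)
      exact ⟨i, e, he.mono hST, Or.inr ⟨he1, he2⟩⟩
    · rw [h] at hr'
      exact absurd (by rw [hr']; simp) hi
    · obtain ⟨e, he, he1, he2⟩ := key t ht (J i r) (∑ k, m k * n k) h hr'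
      exact ⟨i, e, he.mono hST, Or.inl ⟨he1, he2⟩⟩
  have hcos : ∀ x t r : EuclideanSpace ℝ (Fin d), t ∈ LatticeSet x b → r ∈ LatticeSet x b →
      ∃ n : Fin d → ℤ, r = t + ∑ i, (n i : ℝ) • b i := by
    rintro x t r ⟨n, rfl⟩ ⟨m, rfl⟩
    refine ⟨m - n, ?_⟩
    rw [add_assoc, ← Finset.sum_add_distrib]
    congr 1
    refine Finset.sum_congr rfl fun i _ => ?_
    rw [← add_smul, Pi.sub_apply]
    push_cast
    congr 1
    ring
  refine box_count2 (fun i t => J i t + l i) S.card S rfl p q hpq hS ?_ ?_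
  · intro t ht r hr htr
    right
    have ht' := hST (Finset.mem_coe.2 ht)
    have hr' := hST (Finset.mem_coe.2 hr)
    obtain ⟨g, l', c', s', hg, hcut⟩ := exists_dir hKc hKx hKi hb hsub hT ht' hr' htr
    obtain ⟨a, ha, hga⟩ := hJa g ⟨l', c', s', hg⟩
    refine ⟨a, ha, ?_⟩
    have h1 : ∑ i, a i * ((J i t + l i) - (J i r + l i)) = g t - g r := by
      rw [hga t, hga r, ← Finset.sum_sub_distrib]
      exact Finset.sum_congr rfl fun i _ => by ring
    rw [h1]
    unfold Cut at hcut
    rcases hcut with h2 | h2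
    · rw [abs_sub_comm]
      exact le_trans (by linarith [h2.1, h2.2]) (le_abs_self _)
    · exact le_trans (by linarith [h2.1, h2.2]) (le_abs_self _)
  · intro t ht r hr u hu htr htu hru
    have ht' := hST (Finset.mem_coe.2 ht)
    have hr' := hST (Finset.mem_coe.2 hr)
    have hu' := hST (Finset.mem_coe.2 hu)
    rcases ht' with h1 | h1 <;> rcases hr' with h2 | h2 <;> rcases hu' with h3 | h3
    · exact Or.inl (hlatcut t (Or.inl h1) r (Or.inl h2) htr (hcos x0 t r h1 h2))
    · exact Or.inl (hlatcut t (Or.inl h1) r (Or.inl h2) htr (hcos x0 t r h1 h2))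
    · exact Or.inr (Or.inl (hlatcut t (Or.inl h1) u (Or.inl h3) htu (hcos x0 t u h1 h3)))
    · exact Or.inr (Or.inr (hlatcut r (Or.inr h2) u (Or.inr h3) hru (hcos x1 r u h2 h3)))
    · exact Or.inr (Or.inr (hlatcut r (Or.inl h2) u (Or.inl h3) hru (hcos x0 r u h2 h3)))
    · exact Or.inr (Or.inl (hlatcut t (Or.inr h1) u (Or.inr h3) htu (hcos x1 t u h1 h3)))
    · exact Or.inl (hlatcut t (Or.inr h1) r (Or.inr h2) htr (hcos x1 t r h1 h2))
    · exact Or.inl (hlatcut t (Or.inr h1) r (Or.inr h2) htr (hcos x1 t r h1 h2))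

end

end Pool.Agent.E8helper89.TSP
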