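import Mathlib
import Pool.Agent.E8helper89.TSP.Main

/-!
# Totally separable packings: directions which do not span (helper89)
-/

set_option autoImplicit false

open MeasureTheory Filter Topology

namespace Pool.Agent.E8helper89.TSP

section

variable {E : Type} [NormedAddCommGroup E] [NormedSpace ℝ E] [MeasurableSpace E]
  [BorelSpace E] [FiniteDimensional ℝ E] {μ : Measure E} [μ.IsAddHaarMeasure]

/-- from a count of the members which meet a ball to the density -/
theorem lim_bound {K : Set E} (hK : IsCompact K) (T : Set E) (A B : ENNReal) (hA0 : A ≠ 0)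
    (hA1 : A ≠ ⊤) (hB : B ≠ ⊤) (δ : ℝ) (hδ : 0 ≤ δ)
    (hcnt : ∀ R : ℝ, ∀ S : Finset E, (S : Set E) ⊆ T →
      (∀ t ∈ S, (((fun x => t + x) '' K) ∩ Metric.ball (0 : E) R).Nonempty) →
      (S.card : ENNReal) * A ≤ B * μ (Metric.ball (0 : E) (R + δ))) :
    limsup (fun R : ℝ => μ ((⋃ t ∈ T, (fun x => t + x) '' K) ∩ Metric.ball (0 : E) R) /
      μ (Metric.ball (0 : E) R)) atTop ≤ μ K * (B * A⁻¹) := by
  classical
  set m := Module.finrank ℝ E with hm
  set ω := μ (Metric.ball (0 : E) 1) with hω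
  have hω0 : ω ≠ 0 := (Metric.measure_ball_pos μ 0 one_pos).ne'
  have hω1 : ω ≠ ⊤ := measure_ball_lt_top.ne
  have hball : ∀ r : ℝ, 0 < r → μ (Metric.ball (0 : E) r) = ENNReal.ofReal (r ^ m) * ω :=
    fun r hr => Measure.addHaar_ball_of_pos μ 0 hr
  have hkT : μ K ≠ ⊤ := hK.measure_lt_top.ne
  have hbd : ∀ R : ℝ, 0 < R →
      μ ((⋃ t ∈ T, (fun x => t + x) '' K) ∩ Metric.ball (0 : E) R) /
        μ (Metric.ball (0 : E) R) ≤
      (μ K * (B * A⁻¹)) * ENNReal.ofReal (((R + δ) / R) ^ m) := by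
    intro R hR
    set TR : Set E := {t | t ∈ T ∧ (((fun x => t + x) '' K) ∩ Metric.ball (0 : E) R).Nonempty}
      with hTR
    have hfin : TR.Finite := by
      by_contra hinf
      obtain ⟨n, hn⟩ := ENNReal.exists_nat_gt (r := (B * μ (Metric.ball (0 : E) (R + δ))) / A)
        (ENNReal.div_ne_top (ENNReal.mul_ne_top hB measure_ball_lt_top.ne) hA0)
      obtain ⟨S, hS, hSn⟩ := Set.Infinite.exists_subset_card_eq hinf n
      have h1 := hcnt R S (fun t ht => (hS ht).1) (fun t ht => (hS (Finset.mem_coe.2 ht)).2)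
      rw [hSn] at h1
      have h2 := (ENNReal.le_div_iff_mul_le (Or.inl hA0) (Or.inl hA1)).2 h1
      exact absurd h2 (not_le.2 hn)
    set S := hfin.toFinset with hS
    have h1 := hcnt R S (fun t ht => ((hfin.mem_toFinset).1 (Finset.mem_coe.1 ht)).1)
      (fun t ht => ((hfin.mem_toFinset).1 ht).2)
    have h2 : μ ((⋃ t ∈ T, (fun x => t + x) '' K) ∩ Metric.ball (0 : E) R) ≤
        (S.card : ENNReal) * μ K := by
      calc μ ((⋃ t ∈ T, (fun x => t + x) '' K) ∩ Metric.ball (0 : E) R)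
          ≤ μ (⋃ t ∈ S, (fun x => t + x) '' K) := by
            apply measure_mono
            rintro y ⟨hy1, hy2⟩
            rw [Set.mem_iUnion₂] at hy1
            obtain ⟨t, ht, hyt⟩ := hy1
            rw [Set.mem_iUnion₂]
            exact ⟨t, (hfin.mem_toFinset).2 ⟨ht, y, hyt, hy2⟩, hyt⟩
        _ ≤ ∑ t ∈ S, μ ((fun x => t + x) '' K) := measure_biUnion_finset_le _ _
        _ = (S.card : ENNReal) * μ K := by
            rw [← nsmul_eq_mul, ← Finset.sum_const]
            refine Finset.sum_congr rfl fun t _ => ?_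
            rw [Set.image_add_left, measure_preimage_add]
    rw [hball R hR]
    rw [hball (R + δ) (by linarith)] at h1
    set r := ENNReal.ofReal (R ^ m) with hr
    set r' := ENNReal.ofReal ((R + δ) ^ m) with hr'
    have hr0 : r ≠ 0 := (ENNReal.ofReal_pos.2 (pow_pos hR m)).ne'
    have hrt : r ≠ ⊤ := ENNReal.ofReal_ne_top
    have h3 : (S.card : ENNReal) ≤ (B * (r' * ω)) / A :=
      (ENNReal.le_div_iff_mul_le (Or.inl hA0) (Or.inl hA1)).2 h1
    have e2 : ENNReal.ofReal (((R + δ) / R) ^ m) = r' * r⁻¹ := by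
      rw [div_pow, ENNReal.ofReal_div_of_pos (pow_pos hR m), div_eq_mul_inv]
    rw [e2]
    calc μ ((⋃ t ∈ T, (fun x => t + x) '' K) ∩ Metric.ball (0 : E) R) / (r * ω)
        ≤ ((B * (r' * ω)) / A * μ K) / (r * ω) := by
          gcongr
          exact h2.trans (by gcongr)
      _ = μ K * (B * A⁻¹) * (r' * r⁻¹) * (ω * ω⁻¹) := by
          rw [div_eq_mul_inv, div_eq_mul_inv, ENNReal.mul_inv (Or.inl hr0) (Or.inl hrt)]
          ring
      _ = μ K * (B * A⁻¹) * (r' * r⁻¹) := by
          rw [ENNReal.mul_inv_cancel hω0 hω1, mul_one]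
  have hcT : μ K * (B * A⁻¹) ≠ ⊤ :=
    ENNReal.mul_ne_top hkT (ENNReal.mul_ne_top hB (ENNReal.inv_ne_top.2 hA0))
  have hlim : Tendsto (fun R : ℝ => (μ K * (B * A⁻¹)) * ENNReal.ofReal (((R + δ) / R) ^ m)) atTop
      (𝓝 ((μ K * (B * A⁻¹)) * 1)) := by
    apply ENNReal.Tendsto.const_mul
    · have h1 : Tendsto (fun R : ℝ => ((R + δ) / R) ^ m) atTop (𝓝 1) := by
        have h2 : Tendsto (fun R : ℝ => 1 + δ / R) atTop (𝓝 (1 + 0)) :=
          tendsto_const_nhds.add (tendsto_const_nhds.div_atTop tendsto_id)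
        rw [add_zero] at h2
        have h3 : Tendsto (fun R : ℝ => (R + δ) / R) atTop (𝓝 1) := by
          refine h2.congr' ?_
          filter_upwards [eventually_gt_atTop 0] with R hR
          field_simp
        have h4 := h3.pow m
        rwa [one_pow] at h4
      have h5 := ENNReal.tendsto_ofReal h1
      rwa [ENNReal.ofReal_one] at h5
    · exact Or.inr hcT
  rw [mul_one] at hlim
  rw [← hlim.limsup_eq]
  have hev : (fun R : ℝ => μ ((⋃ t ∈ T, (fun x => t + x) '' K) ∩ Metric.ball (0 : E) R) /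
      μ (Metric.ball (0 : E) R)) ≤ᶠ[atTop] (fun R : ℝ =>
      (μ K * (B * A⁻¹)) * ENNReal.ofReal (((R + δ) / R) ^ m)) := by
    filter_upwards [eventually_gt_atTop 0] with R hR
    exact hbd R hR
  exact limsup_le_limsup hev

end

section

variable {d : ℕ} {K : Set (EuclideanSpace ℝ (Fin d))}

/-- the value at an interior point is not the largest one -/
lemma int_lt {z : EuclideanSpace ℝ (Fin d)} (hz : z ∈ interior K)
    (f : EuclideanSpace ℝ (Fin d) →L[ℝ] ℝ) (hf : f ≠ 0) : ∃ y ∈ K, f z < f y := by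
  obtain ⟨u, hu⟩ : ∃ u, 0 < f u := by
    by_contra hcon
    push Not at hcon
    apply hf
    ext u
    apply le_antisymm (hcon u)
    have := hcon (-u)
    rw [map_neg] at this
    show (0 : ℝ) ≤ f u
    linarith
  have h1 : Tendsto (fun ε : ℝ => z + ε • u) (𝓝 0) (𝓝 (z + (0 : ℝ) • u)) :=
    (continuous_const.add (continuous_id.smul continuous_const)).tendsto 0
  rw [zero_smul, add_zero] at h1
  have h2 : ∀ᶠ ε : ℝ in 𝓝 0, z + ε • u ∈ K :=
    h1 (mem_interior_iff_mem_nhds.1 hz)
  obtain ⟨r, hr, hr'⟩ := Metric.eventually_nhds_iff.1 h2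
  have h3 : z + (r / 2) • u ∈ K := hr' (by
    rw [Real.dist_eq, sub_zero, abs_of_pos (by linarith)]
    linarith)
  refine ⟨_, h3, ?_⟩
  rw [map_add, map_smul, smul_eq_mul]
  have : 0 < r / 2 * f u := by positivity
  linarith

/-- **directions which do not span: the density is zero** -/
theorem zero_dens (hKc : IsCompact K) (hKi : (interior K).Nonempty)
    {F : Set (EuclideanSpace ℝ (Fin d) →L[ℝ] ℝ)} {x0 : EuclideanSpace ℝ (Fin d)} (hx0 : x0 ≠ 0)
    (hF : ∀ f ∈ F, f x0 = 0) {T : Set (EuclideanSpace ℝ (Fin d))}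
    (hT : TotallySeparable F T K) : upperDensity T K = 0 := by
  classical
  obtain ⟨ρ, hρ⟩ := hKc.isBounded.exists_norm_le
  have hn0 : 0 < ‖x0‖ := norm_pos_iff.2 hx0
  set C : ℝ := (2 * |ρ| + 1) / ‖x0‖ with hC
  have hCx : C * ‖x0‖ = 2 * |ρ| + 1 := by rw [hC]; field_simp
  have hC0 : 0 < C := by rw [hC]; positivity
  set κ := volume (interior K) with hκ
  have hκ0 : κ ≠ 0 := (isOpen_interior.measure_pos volume hKi).ne'
  have hκ1 : κ ≠ ⊤ := (lt_of_le_of_lt (measure_mono interior_subset) hKc.measure_lt_top).ne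
  have hkT : volume K ≠ ⊤ := hKc.measure_lt_top.ne
  have key : ∀ n : ℕ, upperDensity T K ≤ volume K * (1 * (((n + 1 : ℕ) : ENNReal) * κ)⁻¹) := by
    intro n
    set W : EuclideanSpace ℝ (Fin d) × ℕ → Set (EuclideanSpace ℝ (Fin d)) := fun p =>
      (fun x => (p.1 + ((p.2 : ℝ) * C) • x0) + x) '' interior K with hW
    have hWo : ∀ p, IsOpen (W p) := fun p =>
      (Homeomorph.addLeft (p.1 + ((p.2 : ℝ) * C) • x0)).isOpenMap _ isOpen_interior
    have hWv : ∀ p, volume (W p) = κ := fun p => by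
      rw [hW, hκ]
      simp only
      rw [Set.image_add_left, measure_preimage_add]
    -- disjointness
    have hsepf : ∀ (t s : EuclideanSpace ℝ (Fin d)) (f : EuclideanSpace ℝ (Fin d) →L[ℝ] ℝ) (c : ℝ)
        (a b : ℝ), f ≠ 0 → f x0 = 0 → (∀ x ∈ (fun x => t + x) '' K, f x ≤ c) →
        (∀ x ∈ (fun x => s + x) '' K, c ≤ f x) → ∀ x ∈ interior K, ∀ x' ∈ interior K,
        (t + a • x0) + x = (s + b • x0) + x' → False := by
      intro t s f c a b hf hfx h1 h2 x hx x' hx' h3
      obtain ⟨y, hy, hxy⟩ := int_lt hx f hf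
      have h4 := h1 (t + y) ⟨y, hy, rfl⟩
      have h5 := h2 (s + x') ⟨x', interior_subset hx', rfl⟩
      have h6 := congrArg f h3
      simp only [map_add, map_smul, hfx, smul_zero, add_zero] at h4 h5 h6
      linarith
    have hdisj : ∀ p q : EuclideanSpace ℝ (Fin d) × ℕ, p.1 ∈ T → q.1 ∈ T → p ≠ q →
        Disjoint (W p) (W q) := by
      rintro ⟨t, k⟩ ⟨s, j⟩ ht hs hpq
      rw [Set.disjoint_left]
      rintro z ⟨x, hx, rfl⟩ ⟨x', hx', hxx⟩
      simp only at hxx ht hs
      by_cases hts : t = s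
      · subst hts
        have hkj : k ≠ j := fun h => hpq (by rw [h])
        have h1 : x' - x = (((k : ℝ) - j) * C) • x0 := by
          have h2 : x' - x = (((k : ℝ) * C) • x0) - (((j : ℝ) * C) • x0) := by
            have h3 : t + ((j : ℝ) * C) • x0 + x' - (t + ((k : ℝ) * C) • x0 + x) = 0 :=
              sub_eq_zero.2 hxx
            have h4 : x' - x = (t + ((j : ℝ) * C) • x0 + x' - (t + ((k : ℝ) * C) • x0 + x)) +
              ((((k : ℝ) * C) • x0) - (((j : ℝ) * C) • x0)) := by abel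
            rw [h4, h3, zero_add]
          rw [h2, ← sub_smul]
          congr 1
          ring
        have h2 : 1 ≤ |(k : ℝ) - j| := by
          have h3 : (1 : ℤ) ≤ |(k : ℤ) - j| := Int.one_le_abs (by
            intro h4
            apply hkj
            omega)
          exact_mod_cast h3
        have h3 : ‖x' - x‖ ≤ 2 * |ρ| := by
          have h4 := hρ x (interior_subset hx)
          have h5 := hρ x' (interior_subset hx')
          have h6 := le_abs_self ρ
          exact (norm_sub_le _ _).trans (by linarith)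
        rw [h1, norm_smul, Real.norm_eq_abs, abs_mul, abs_of_pos hC0, mul_assoc, hCx] at h3
        have h4 : 0 ≤ |ρ| := abs_nonneg _
        nlinarith
      · obtain ⟨f, hfF, hf0, c, hsep, -⟩ := hT t ht s hs hts
        rcases hsep with ⟨h1, h2⟩ | ⟨h1, h2⟩
        · exact hsepf t s f c _ _ hf0 (hF f hfF) h1 h2 x hx x' hx' hxx.symm
        · exact hsepf s t f c _ _ hf0 (hF f hfF) h1 h2 x' hx' x hx hxx
    refine lim_bound hKc T (((n + 1 : ℕ) : ENNReal) * κ) 1 (mul_ne_zero (by
        exact_mod_cast Nat.succ_ne_zero n) hκ0)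
      (ENNReal.mul_ne_top (ENNReal.natCast_ne_top _) hκ1) ENNReal.one_ne_top
      (2 * |ρ| + ((n + 1 : ℕ) : ℝ) * (2 * |ρ| + 1) + 1) (by positivity) ?_
    intro R S hST hSR
    rw [one_mul]
    have h1 : (S.card : ENNReal) * (((n + 1 : ℕ) : ENNReal) * κ) =
        ∑ p ∈ S ×ˢ Finset.range (n + 1), volume (W p) := by
      rw [Finset.sum_congr rfl fun p _ => hWv p, Finset.sum_const, Finset.card_product,
        Finset.card_range, nsmul_eq_mul]
      push_cast
      ring
    rw [h1, ← measure_biUnion_finset]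
    · apply measure_mono
      intro z hz
      rw [Set.mem_iUnion₂] at hz
      obtain ⟨⟨t, k⟩, hp, x, hx, rfl⟩ := hz
      rw [Finset.mem_product, Finset.mem_range] at hp
      simp only at hp
      obtain ⟨z', ⟨y, hy, hyz⟩, hz'⟩ := hSR t hp.1
      simp only at hyz
      rw [← hyz, mem_ball_zero_iff] at hz'
      rw [mem_ball_zero_iff]
      have h2 := hρ x (interior_subset hx)
      have h3 := hρ y hy
      have h4 := le_abs_self ρ
      have h5 : ‖((k : ℝ) * C) • x0‖ ≤ ((n + 1 : ℕ) : ℝ) * (2 * |ρ| + 1) := by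
        rw [norm_smul, Real.norm_eq_abs, abs_mul, abs_of_pos hC0, mul_assoc, hCx,
          abs_of_nonneg (Nat.cast_nonneg k)]
        have : (k : ℝ) ≤ ((n + 1 : ℕ) : ℝ) := by exact_mod_cast hp.2.le
        gcongr
      simp only
      have e : t + ((k : ℝ) * C) • x0 + x = ((t + y) - y) + (((k : ℝ) * C) • x0 + x) := by abel
      calc ‖t + ((k : ℝ) * C) • x0 + x‖ = ‖((t + y) - y) + (((k : ℝ) * C) • x0 + x)‖ := by rw [e]
        _ ≤ (‖t + y‖ + ‖y‖) + (‖((k : ℝ) * C) • x0‖ + ‖x‖) :=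
            (norm_add_le _ _).trans (add_le_add (norm_sub_le _ _) (norm_add_le _ _))
        _ < R + (2 * |ρ| + ((n + 1 : ℕ) : ℝ) * (2 * |ρ| + 1) + 1) := by linarith
    · intro p hp q hq hpq
      rw [Finset.mem_coe, Finset.mem_product] at hp hq
      exact hdisj p q (hST (Finset.mem_coe.2 hp.1)) (hST (Finset.mem_coe.2 hq.1)) hpq
    · intro p _
      exact (hWo p).measurableSet
  have hlim : Tendsto (fun n : ℕ => volume K * (1 * (((n + 1 : ℕ) : ENNReal) * κ)⁻¹)) atTop
      (𝓝 (volume K * (1 * 0))) := by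
    apply ENNReal.Tendsto.const_mul
    · rw [mul_zero]
      have h1 : Tendsto (fun n : ℕ => (((n + 1 : ℕ) : ENNReal) * κ)) atTop (𝓝 ⊤) := by
        have h2 : Tendsto (fun n : ℕ => ((n + 1 : ℕ) : ENNReal)) atTop (𝓝 ⊤) :=
          ENNReal.tendsto_nat_nhds_top.comp (tendsto_add_atTop_nat 1)
        have h3 := ENNReal.Tendsto.mul_const h2 (Or.inl ENNReal.top_ne_zero) (b := κ)
        rwa [ENNReal.top_mul hκ0] at h3
      have h4 := ENNReal.tendsto_inv_iff.2 h1
      rw [ENNReal.inv_top] at h4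
      refine h4.congr fun n => ?_
      rw [one_mul]
    · exact Or.inr hkT
  rw [mul_zero, mul_zero] at hlim
  exact le_antisymm (ge_of_tendsto' hlim key) zero_le

end

end Pool.Agent.E8helper89.TSP
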